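import Pool.Agent.N855.CNF.Main

/-!
# Comparison of a theta series with a finite sum of Lambert series
-/

set_option autoImplicit false

namespace Pool.Agent.N609.CNF

open Finset
open Pool.Agent.N855.CNF (eq_zero_of_small)

/-- the constant term in terms of the limits of the Lambert series -/
theorem absCore {ι : Type} (I : Finset ι) (L : ι → ℕ → ℝ) (a lam : ι → ℝ) (hL0 : ∀ i, L i 0 = 0)
    (hex : ∀ i, ∀ t : ℝ, 0 < t → ∃ s : ℝ, HasSum (fun m : ℕ => L i m * Real.exp (-t) ^ m) s)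
    (hlim : ∀ i ∈ I, ∃ C : ℝ, ∀ t : ℝ, 0 < t → t ≤ 1 / 2 → ∀ s1 s2 : ℝ,
      HasSum (fun m : ℕ => L i m * Real.exp (-t) ^ m) s1 →
      HasSum (fun m : ℕ => L i m * Real.exp (-(2 * t)) ^ m) s2 → |s1 - 2 * s2 - lam i| ≤ C * t)
    {w : ℕ} (hw : 0 < w) (c : ℕ → ℝ) (hc : ∀ m : ℕ, m ≠ 0 → c (w * m) = ∑ i ∈ I, a i * L i m)
    (hc0 : ∀ k : ℕ, ¬ w ∣ k → c k = 0)
    (htot : ∃ κ K' : ℝ, ∀ t : ℝ, 0 < t → t ≤ 1 →
      ∃ s : ℝ, HasSum (fun k : ℕ => c k * Real.exp (-(t * k))) s ∧ |s - κ / t| ≤ K' * t) :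
    c 0 = ∑ i ∈ I, a i * lam i := by
  have hwr : (0 : ℝ) < w := by exact_mod_cast hw
  have hw1 : (1 : ℝ) ≤ w := by exact_mod_cast hw
  obtain ⟨κ, K', htot⟩ := htot
  choose! C hC using hlim
  have hexp : ∀ t : ℝ, 0 < t → ∀ s : ℝ,
      HasSum (fun k : ℕ => c k * Real.exp (-(t * k))) s → ∀ ℓ : ι → ℝ,
      (∀ i ∈ I, HasSum (fun m : ℕ => L i m * Real.exp (-(w * t)) ^ m) (ℓ i)) →
      s = c 0 + ∑ i ∈ I, a i * ℓ i := by
    intro t ht s hs ℓ hℓ
    have hinj : Function.Injective (fun m : ℕ => w * m) := fun a b h => by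
      simp only at h
      exact Nat.eq_of_mul_eq_mul_left hw h
    rw [← hinj.hasSum_iff (fun k hk => by
      rw [hc0 k (fun ⟨m, hm⟩ => hk ⟨m, hm.symm⟩)]; simp)] at hs
    have h1 := hasSum_sum fun i hi => (hℓ i hi).mul_left (a i)
    have h2 := h1.add (hasSum_ite_eq (0 : ℕ) (c 0))
    have h3 : HasSum ((fun k : ℕ => c k * Real.exp (-(t * k))) ∘
        fun m : ℕ => w * m) (∑ i ∈ I, a i * ℓ i + c 0) := by
      refine h2.congr_fun fun m => ?_
      simp only [Function.comp_apply]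
      rcases eq_or_ne m 0 with rfl | hm
      · rw [if_pos rfl]
        simp [hL0]
      · rw [if_neg hm, add_zero, hc m hm, sum_mul]
        apply sum_congr rfl
        intro i _
        have e2 : Real.exp (-(w * t)) ^ m = Real.exp (-(t * ((w * m : ℕ) : ℝ))) := by
          rw [← Real.exp_nat_mul]; congr 1; push_cast; ring
        rw [e2]
        ring
    rw [hs.unique h3]
    ring
  have hlim : c 0 - ∑ i ∈ I, a i * lam i = 0 := by
    apply eq_zero_of_small (δ := 1 / (2 * w))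
      (C := 5 * K' + ∑ i ∈ I, |a i| * (C i * w)) (by positivity)
    intro t ht ht1
    have ht2 : (w : ℝ) * t ≤ 1 / 2 := by
      rw [le_div_iff₀ (by positivity)] at ht1
      linarith
    have ht3 : t ≤ 1 / 2 := by nlinarith
    obtain ⟨s1, hs1, hb1⟩ := htot t ht (by linarith)
    obtain ⟨s2, hs2, hb2⟩ := htot (2 * t) (by linarith) (by linarith)
    choose ℓ1 hℓ1 using fun i : ι => hex i (w * t) (by positivity)
    choose ℓ2 hℓ2 using fun i : ι => hex i (w * (2 * t)) (by positivity)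
    have e1 := hexp t ht s1 hs1 ℓ1 fun i _ => hℓ1 i
    have e2 := hexp (2 * t) (by linarith) s2 hs2 ℓ2 fun i _ => hℓ2 i
    have h1 : |s1 - 2 * s2| ≤ 5 * K' * t := by
      have h2 : s1 - 2 * s2 = (s1 - κ / t) - 2 * (s2 - κ / (2 * t)) := by
        field_simp
        ring
      rw [h2]
      refine (abs_sub _ _).trans ?_
      rw [abs_mul, abs_two]
      linarith
    have h3 : ∀ i ∈ I, |a i * (ℓ1 i - 2 * ℓ2 i - lam i)| ≤ |a i| * (C i * w) * t := by
      intro i hi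
      have h4 := hC i hi (w * t) (by positivity) ht2 (ℓ1 i) (ℓ2 i) (hℓ1 i) (by
        have := hℓ2 i
        rwa [show (w : ℝ) * (2 * t) = 2 * (w * t) by ring] at this)
      rw [abs_mul]
      calc |a i| * _ ≤ |a i| * (C i * (w * t)) := mul_le_mul_of_nonneg_left h4 (abs_nonneg _)
        _ = |a i| * (C i * w) * t := by ring
    have h4 : |∑ i ∈ I, a i * (ℓ1 i - 2 * ℓ2 i - lam i)| ≤
        (∑ i ∈ I, |a i| * (C i * w)) * t := by
      rw [sum_mul]
      exact (abs_sum_le_sum_abs _ _).trans (sum_le_sum h3)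
    have h5 : c 0 - ∑ i ∈ I, a i * lam i =
        -(s1 - 2 * s2) + ∑ i ∈ I, a i * (ℓ1 i - 2 * ℓ2 i - lam i) := by
      have h6 : ∑ i ∈ I, a i * (ℓ1 i - 2 * ℓ2 i - lam i) =
          ∑ i ∈ I, a i * ℓ1 i - 2 * ∑ i ∈ I, a i * ℓ2 i - ∑ i ∈ I, a i * lam i := by
        rw [mul_sum, ← sum_sub_distrib, ← sum_sub_distrib]
        exact sum_congr rfl fun i _ => by ring
      rw [h6, e1, e2]
      ring
    rw [h5]
    refine (abs_add_le _ _).trans ?_
    rw [abs_neg, add_mul]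
    exact add_le_add h1 h4
  linarith

end Pool.Agent.N609.CNF
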