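import Pool.Agent.N609.CNF.Loc
import Pool.Agent.N855.CNF.Main

/-!
# The class number formula from the number of orthogonal pairs, any odd prime `q`
-/

set_option autoImplicit false

namespace Pool.Agent.N609.CNF

open Finset Filter Topology ArithmeticFunction
open Pool.Agent.N855.CNF

/-- the coefficient of the genus character -/
noncomputable def sgq (q : ℕ) (S : Finset ℕ) : ℤ := ∏ l ∈ S, jacobiSym (-(q : ℤ)) l

lemma sgq_abs (q : ℕ) (S : Finset ℕ) : |((sgq q S : ℤ) : ℝ)| ≤ 1 := by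
  have h : |sgq q S| ≤ 1 := by
    unfold sgq
    rw [abs_prod]
    apply prod_le_one (fun _ _ => abs_nonneg _)
    intro p _
    rcases jacobiSym.trichotomy (-(q : ℤ)) p with h | h | h <;> rw [h] <;> simp
  exact_mod_cast h

/-- the number of vectors in terms of the mean value -/
theorem r_mu {q n : ℕ} (K : ℕ) (hq : q.Prime) (hq2 : q ≠ 2) (hn : Squarefree n) (h4 : n % 4 = 3)
    (h5 : jacobiSym (q : ℤ) n = -1) (c : ℕ → ℝ)
    (hc : ∀ k : ℕ, k ≠ 0 → c k = K * ((Pool.Agent.N609.CNF.locq q n (n * k) : ℤ) : ℝ))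
    (htot : ∃ κ K' : ℝ, ∀ t : ℝ, 0 < t → t ≤ 1 →
      ∃ s : ℝ, HasSum (fun k : ℕ => c k * Real.exp (-(t * k))) s ∧ |s - κ / t| ≤ K' * t) :
    c 0 = K * mu (rc n.primeFactors) n := by
  set P := n.primeFactors with hP
  have hn0 : 0 < n := by omega
  have hq0 : 0 < q := hq.pos
  have hqr : (0 : ℝ) < q := by exact_mod_cast hq0
  have hOP : OP P := OP_P h4
  have hP0 : P.Nonempty := by
    rw [hP, Nat.nonempty_primeFactors]; omega
  obtain ⟨κ, K', htot⟩ := htot
  choose! C hC using fun (S : Finset ℕ) (hS : S ⊆ P) => one_char hn h4 hS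
  -- the coefficients
  have hcm : ∀ m : ℕ, m ≠ 0 → c (4 * q * m) =
      K * ∑ S ∈ P.powerset, ((sgq q S : ℤ) : ℝ) * (((cA S * cA (P \ S)) m : ℤ) : ℝ) := by
    intro m hm
    rw [hc (4 * q * m) (by positivity), Pool.Agent.N609.CNF.loc_eq hq hq2 hn h4 h5 hm]
    push_cast
    congr 1
    apply sum_congr rfl
    intro S _
    unfold sgq
    push_cast
    rfl
  have hck : ∀ k : ℕ, k ∉ Set.range (fun m : ℕ => 4 * q * m) → c k = 0 := by
    intro k hk
    have hk1 : ¬ 4 * q ∣ k := fun ⟨m, hm⟩ => hk ⟨m, hm.symm⟩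
    have hk0 : k ≠ 0 := fun h => hk1 (h ▸ dvd_zero _)
    rw [hc k hk0, Pool.Agent.N609.CNF.loc_zero hq hq2 hn h4 (not_dvd_of_jac hq (by omega) h5) hk0
      hk1]
    simp
  -- the expansion
  have hexp : ∀ t : ℝ, 0 < t → ∀ s : ℝ,
      HasSum (fun k : ℕ => c k * Real.exp (-(t * k))) s → ∀ ℓ : Finset ℕ → ℝ,
      (∀ S ∈ P.powerset, HasSum (fun m : ℕ => (((cA S * cA (P \ S)) m : ℤ) : ℝ) *
        Real.exp (-(4 * q * t)) ^ m) (ℓ S)) →
      s = c 0 + K * ∑ S ∈ P.powerset, ((sgq q S : ℤ) : ℝ) * ℓ S := by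
    intro t ht s hs ℓ hℓ
    have hinj : Function.Injective (fun m : ℕ => 4 * q * m) := fun a b h => by
      simp only at h
      exact Nat.eq_of_mul_eq_mul_left (by positivity) h
    rw [← hinj.hasSum_iff (fun k hk => by rw [hck k hk]; simp)] at hs
    have h1 := hasSum_sum fun S hS => (hℓ S hS).mul_left ((sgq q S : ℤ) : ℝ)
    have h2 := (h1.mul_left (K : ℝ)).add (hasSum_ite_eq (0 : ℕ) (c 0))
    have h3 : HasSum ((fun k : ℕ => c k * Real.exp (-(t * k))) ∘
        fun m : ℕ => 4 * q * m) (K * ∑ S ∈ P.powerset, ((sgq q S : ℤ) : ℝ) * ℓ S + c 0) := by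
      refine h2.congr_fun fun m => ?_
      simp only [Function.comp_apply]
      rcases eq_or_ne m 0 with rfl | hm
      · rw [if_pos rfl]
        simp
      · rw [if_neg hm, add_zero, hcm m hm, mul_assoc, sum_mul]
        congr 1
        apply sum_congr rfl
        intro S _
        have e2 : Real.exp (-(4 * q * t)) ^ m = Real.exp (-(t * ((4 * q * m : ℕ) : ℝ))) := by
          rw [← Real.exp_nat_mul]; congr 1; push_cast; ring
        rw [e2]
        ring
    rw [hs.unique h3]
    ring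
  -- the limit
  have hlim : c 0 - K * ∑ S ∈ P.powerset, ((sgq q S : ℤ) : ℝ) *
      (if S = ∅ ∨ S = P then mu (rc P) n / 2 else 0) = 0 := by
    apply eq_zero_of_small (δ := 1 / (8 * q))
      (C := 5 * K' + K * ∑ S ∈ P.powerset, C S * (4 * q)) (by positivity)
    intro t ht ht1
    have ht2 : 4 * (q : ℝ) * t ≤ 1 / 2 := by
      rw [le_div_iff₀ (by positivity)] at ht1
      linarith
    have hq1 : (1 : ℝ) ≤ q := by exact_mod_cast hq0
    have ht3 : t ≤ 1 / 8 := by nlinarith
    obtain ⟨s1, hs1, hb1⟩ := htot t ht (by linarith)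
    obtain ⟨s2, hs2, hb2⟩ := htot (2 * t) (by linarith) (by linarith)
    choose ℓ1 hℓ1 using fun S : Finset ℕ => lam_exists S (P \ S) (t := 4 * q * t) (by positivity)
    choose ℓ2 hℓ2 using fun S : Finset ℕ => lam_exists S (P \ S) (t := 4 * q * (2 * t))
      (by positivity)
    have e1 := hexp t ht s1 hs1 ℓ1 fun S _ => hℓ1 S
    have e2 := hexp (2 * t) (by linarith) s2 hs2 ℓ2 fun S _ => hℓ2 S
    have h1 : |s1 - 2 * s2| ≤ 5 * K' * t := by
      have h2 : s1 - 2 * s2 = (s1 - κ / t) - 2 * (s2 - κ / (2 * t)) := by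
        field_simp
        ring
      rw [h2]
      refine (abs_sub _ _).trans ?_
      rw [abs_mul, abs_two]
      linarith
    have h3 : ∀ S ∈ P.powerset, |((sgq q S : ℤ) : ℝ) * (ℓ1 S - 2 * ℓ2 S -
        (if S = ∅ ∨ S = P then mu (rc P) n / 2 else 0))| ≤ C S * (4 * q) * t := by
      intro S hS
      rw [mem_powerset] at hS
      have h4 := hC S hS (4 * q * t) (by positivity) ht2 (ℓ1 S) (ℓ2 S) (hℓ1 S) (by
        have := hℓ2 S
        rwa [show 4 * (q : ℝ) * (2 * t) = 2 * (4 * q * t) by ring] at this)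
      rw [abs_mul]
      have h5 := sgq_abs q S
      have h6 := abs_nonneg (ℓ1 S - 2 * ℓ2 S -
        (if S = ∅ ∨ S = P then mu (rc P) n / 2 else 0))
      calc |((sgq q S : ℤ) : ℝ)| * _ ≤ 1 * _ := mul_le_mul_of_nonneg_right h5 h6
        _ ≤ C S * (4 * q * t) := by rw [one_mul]; exact h4
        _ = C S * (4 * q) * t := by ring
    have h4 : |∑ S ∈ P.powerset, ((sgq q S : ℤ) : ℝ) * (ℓ1 S - 2 * ℓ2 S -
        (if S = ∅ ∨ S = P then mu (rc P) n / 2 else 0))| ≤
        (∑ S ∈ P.powerset, C S * (4 * q)) * t := by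
      rw [sum_mul]
      exact (abs_sum_le_sum_abs _ _).trans (sum_le_sum h3)
    have h5 : c 0 - K * ∑ S ∈ P.powerset, ((sgq q S : ℤ) : ℝ) *
        (if S = ∅ ∨ S = P then mu (rc P) n / 2 else 0) =
        -(s1 - 2 * s2) + K * ∑ S ∈ P.powerset, ((sgq q S : ℤ) : ℝ) * (ℓ1 S - 2 * ℓ2 S -
        (if S = ∅ ∨ S = P then mu (rc P) n / 2 else 0)) := by
      have h6 : ∑ S ∈ P.powerset, ((sgq q S : ℤ) : ℝ) * (ℓ1 S - 2 * ℓ2 S -
          (if S = ∅ ∨ S = P then mu (rc P) n / 2 else 0)) =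
          ∑ S ∈ P.powerset, ((sgq q S : ℤ) : ℝ) * ℓ1 S -
          2 * ∑ S ∈ P.powerset, ((sgq q S : ℤ) : ℝ) * ℓ2 S -
          ∑ S ∈ P.powerset, ((sgq q S : ℤ) : ℝ) *
            (if S = ∅ ∨ S = P then mu (rc P) n / 2 else 0) := by
        rw [mul_sum, ← sum_sub_distrib, ← sum_sub_distrib]
        exact sum_congr rfl fun S _ => by ring
      rw [h6, e1, e2]
      ring
    rw [h5]
    refine (abs_add_le _ _).trans ?_
    rw [abs_neg, abs_mul, abs_of_nonneg (Nat.cast_nonneg K : (0 : ℝ) ≤ K)]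
    have hK : (0 : ℝ) ≤ K := Nat.cast_nonneg K
    nlinarith [mul_le_mul_of_nonneg_left h4 hK]
  -- the value
  have hsg : sgq q P = 1 := by
    unfold sgq
    have h1 : ∏ l ∈ P, jacobiSym (-(q : ℤ)) l = ∏ l ∈ P, (jacobiSym (-1) l * ch {l} q) := by
      apply prod_congr rfl
      intro l _
      unfold ch
      rw [prod_singleton, ← jacobiSym.mul_left]
      congr 1
      ring
    have h2 : ∏ l ∈ P, ch {l} q = jacobiSym (q : ℤ) n := by
      have := ch_primeFactors hn q
      rw [← this]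
      unfold ch
      apply prod_congr rfl
      intro l _
      rw [prod_singleton]
    have h3 : ∏ l ∈ P, jacobiSym (-1) l = -1 := by
      have hkey : ∀ S : Finset ℕ, OP S → ∏ l ∈ S, jacobiSym (-1) l = jacobiSym (-1) (md S) := by
        intro S
        induction S using Finset.induction_on with
        | empty => intro _; simp [md, jacobiSym.one_right]
        | insert p S hp ih =>
          intro hS
          have h1 : OP S := fun q hq => hS q (mem_insert_of_mem hq)
          have h2 : p ≠ 0 := (hS p (mem_insert_self p S)).1.ne_zero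
          have e : md (insert p S) = p * md S := by unfold md; rw [prod_insert hp]
          rw [e, jacobiSym.mul_right' _ h2 (md_pos h1).ne', ← ih h1, prod_insert hp]
      rw [hkey P hOP, md_P hn, jacobiSym.at_neg_one (Nat.odd_iff.2 (by omega)),
        ZMod.χ₄_nat_three_mod_four h4]
    rw [h1, prod_mul_distrib, h2, h3, h5]
    norm_num
  have hsum : ∑ S ∈ P.powerset, ((sgq q S : ℤ) : ℝ) *
      (if S = ∅ ∨ S = P then mu (rc P) n / 2 else 0) = mu (rc P) n := by
    have hne : (∅ : Finset ℕ) ≠ P := hP0.ne_empty.symm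
    have h1 : ∀ S ∈ P.powerset, ((sgq q S : ℤ) : ℝ) *
        (if S = ∅ ∨ S = P then mu (rc P) n / 2 else 0) =
        (if S = ∅ then mu (rc P) n / 2 else 0) + (if S = P then mu (rc P) n / 2 else 0) := by
      intro S _
      by_cases a1 : S = ∅
      · subst a1
        rw [if_pos (Or.inl rfl), if_pos rfl, if_neg hne]
        simp [sgq]
      · by_cases a2 : S = P
        · rw [if_pos (Or.inr a2), if_neg a1, if_pos a2, a2, hsg]
          simp
        · rw [if_neg (by tauto), if_neg a1, if_neg a2]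
          simp
    rw [sum_congr rfl h1, sum_add_distrib, sum_ite_eq', sum_ite_eq',
      if_pos (empty_mem_powerset P), if_pos (mem_powerset_self P)]
    ring
  rw [hsum] at hlim
  linarith

/-- the first moment of the character -/
theorem moment {n : ℕ} (K : ℕ) (hn : Squarefree n) (h4 : n % 4 = 3) (r : ℤ)
    (h1 : (r : ℝ) = K * mu (rc n.primeFactors) n) :
    K * ∑ u ∈ range n, (u : ℤ) * jacobiSym (u : ℤ) n = -(n * r) := by
  have hn0 : 0 < n := by omega
  have hnr : (n : ℝ) ≠ 0 := by positivity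
  have hOP := OP_P h4
  have hP0 : n.primeFactors.Nonempty := by
    rw [Nat.nonempty_primeFactors]; omega
  have h0 : ps (rc n.primeFactors) n = 0 := by
    have := rc_ps hOP hP0
    rwa [md_P hn] at this
  rw [mu_eq h0] at h1
  have h2 : ∑ j ∈ range n, (j : ℝ) * rc n.primeFactors j =
      ((∑ u ∈ range n, (u : ℤ) * jacobiSym (u : ℤ) n : ℤ) : ℝ) := by
    push_cast
    apply sum_congr rfl
    intro j _
    unfold rc
    rw [ch_primeFactors hn]
  rw [h2] at h1
  have h3 : ((K * ∑ u ∈ range n, (u : ℤ) * jacobiSym (u : ℤ) n : ℤ) : ℝ) =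
      ((-(n * r) : ℤ) : ℝ) := by
    push_cast at h1 ⊢
    rw [h1]
    field_simp
  exact_mod_cast h3

end Pool.Agent.N609.CNF
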