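import Pool.Agent.N609.CNF.LamG
import Pool.Agent.N855.CNF.Per
import Pool.Agent.N969.P15.Defs2

/-!
# The quadratic characters of even conductor
-/

set_option autoImplicit false

namespace Pool.Agent.N609.CNF

open Finset Filter Topology ArithmeticFunction
open Pool.Agent.N855.CNF (ps mu ch ch_one ch_mul ch_pow OP md md_pos md_odd ch_jac cA cA_apply)
open Pool.Agent.N969.P15 (c2 Ev chE)

lemma c2_eq (n : ℕ) (u : ℤ) : c2 n u = if n % 16 = 4 then ZMod.χ₄ u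
    else if n % 32 = 8 then ZMod.χ₈' u else ZMod.χ₈ u := by
  unfold c2
  rw [ZMod.χ₄_int_eq_if_mod_four, ZMod.χ₈_int_eq_if_mod_eight, ZMod.χ₈'_int_eq_if_mod_eight]
  split_ifs <;> rfl

lemma c2_mul (n : ℕ) (a b : ℤ) : c2 n (a * b) = c2 n a * c2 n b := by
  rw [c2_eq, c2_eq, c2_eq]
  split_ifs <;> rw [Int.cast_mul, map_mul]

lemma c2_one (n : ℕ) : c2 n 1 = 1 := by
  rw [c2_eq]
  split_ifs <;> rw [Int.cast_one, map_one]

lemma c2_zero (n : ℕ) : c2 n 0 = 0 := by simp [c2]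

lemma c2_even {n : ℕ} {u : ℤ} (h : u % 2 = 0) : c2 n u = 0 := by simp [c2, h]

lemma c2_abs (n : ℕ) (u : ℤ) : |c2 n u| ≤ 1 := by
  unfold c2
  split_ifs <;> norm_num

lemma c2_odd_sq {n : ℕ} {u : ℤ} (h : u % 2 = 1) : c2 n u = 1 ∨ c2 n u = -1 := by
  unfold c2
  rw [if_neg (by omega)]
  split_ifs <;> simp

/-- half of the conductor of the `2`-part -/
def hc (n : ℕ) : ℕ := if n % 16 = 4 then 2 else 4

lemma hc_pos (n : ℕ) : 0 < hc n := by unfold hc; split_ifs <;> norm_num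

/-- the shift by half of the conductor -/
lemma c2_shift (n : ℕ) {M : ℕ} (hM : Odd M) (u : ℤ) : c2 n (u + (hc n * M : ℕ)) = - c2 n u := by
  obtain ⟨k, hk⟩ := hM
  subst hk
  by_cases h16 : n % 16 = 4
  · have h1 : hc n = 2 := by unfold hc; rw [if_pos h16]
    rw [h1]
    unfold c2
    push_cast
    split_ifs <;> omega
  · have h1 : hc n = 4 := by unfold hc; rw [if_neg h16]
    rw [h1]
    unfold c2
    push_cast
    split_ifs <;> omega

/-- the character with the `2`-part and the odd part `T` -/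
def dA (n : ℕ) (T : Finset ℕ) : ArithmeticFunction ℤ :=
  ⟨fun d => c2 n d * ch T d, by rw [Nat.cast_zero, c2_zero, zero_mul]⟩

lemma dA_apply (n : ℕ) (T : Finset ℕ) (d : ℕ) : dA n T d = c2 n d * ch T d := rfl

lemma dA_mul (n : ℕ) (T : Finset ℕ) (a b : ℕ) : dA n T (a * b) = dA n T a * dA n T b := by
  rw [dA_apply, dA_apply, dA_apply, Nat.cast_mul, c2_mul, ch_mul]
  ring

lemma dA_one (n : ℕ) (T : Finset ℕ) : dA n T 1 = 1 := by
  rw [dA_apply, ch_one, Nat.cast_one, c2_one, one_mul]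

lemma dA_pow (n : ℕ) (T : Finset ℕ) (a k : ℕ) : dA n T (a ^ k) = dA n T a ^ k := by
  induction k with
  | zero => rw [pow_zero, pow_zero, dA_one]
  | succ k ih => rw [pow_succ, pow_succ, dA_mul, ih]

lemma dA_mult (n : ℕ) (T : Finset ℕ) : (dA n T).IsMultiplicative := by
  rw [IsMultiplicative.iff_ne_zero]
  exact ⟨dA_one n T, fun _ _ _ => dA_mul n T _ _⟩

lemma ch_abs (T : Finset ℕ) (d : ℕ) : |ch T d| ≤ 1 := by
  unfold ch
  rw [abs_prod]
  apply prod_le_one (fun _ _ => abs_nonneg _)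
  intro p _
  rcases jacobiSym.trichotomy (d : ℤ) p with h | h | h <;> rw [h] <;> simp

lemma dA_bd (n : ℕ) (T : Finset ℕ) (d : ℕ) : |dA n T d| ≤ 1 := by
  rw [dA_apply, abs_mul]
  exact mul_le_one₀ (c2_abs _ _) (abs_nonneg _) (ch_abs _ _)

lemma dA_anti (n : ℕ) {T : Finset ℕ} (hT : OP T) (d : ℕ) :
    dA n T (d + hc n * md T) = - dA n T d := by
  rw [dA_apply, dA_apply, Nat.cast_add, c2_shift n (md_odd hT)]
  have : ch T (d + hc n * md T) = ch T d := by
    rw [ch_jac hT, ch_jac hT]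
    apply jacobiSym.mod_left'
    push_cast
    simp
  rw [this, neg_mul]

lemma dA_Per (n : ℕ) {T : Finset ℕ} (hT : OP T) : Per (dA n T) (2 * (hc n * md T)) :=
  anti_per (Nat.mul_pos (hc_pos n) (md_pos hT)) (dA_bd n T) (dA_anti n hT)

/-- the sign of the `2`-part -/
lemma c2_neg (n : ℕ) (u : ℤ) : c2 n (-u) = (if n % 16 = 4 ∨ n % 32 = 8 then -1 else 1) * c2 n u := by
  have h1 : -u = (-1) * u := by ring
  rw [h1, c2_mul]
  congr 1
  unfold c2
  split_ifs <;> first | rfl | omega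

lemma ch_refl {T : Finset ℕ} (hT : OP T) {M d : ℕ} (hM : md T ∣ M) (hd : d ≤ M) :
    ch T (M - d) = (if md T % 4 = 1 then 1 else -1) * ch T d := by
  rw [ch_jac hT, ch_jac hT]
  have e1 : jacobiSym ((M - d : ℕ) : ℤ) (md T) = jacobiSym (-(d : ℤ)) (md T) := by
    apply jacobiSym.mod_left'
    rw [Nat.cast_sub hd]
    obtain ⟨k, hk⟩ := hM
    rw [hk]
    have : ((md T * k : ℕ) : ℤ) - d = -(d : ℤ) + md T * k := by push_cast; ring
    rw [this, Int.add_mul_emod_self_left]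
  rw [e1, neg_eq_neg_one_mul, jacobiSym.mul_left, jacobiSym.at_neg_one (md_odd hT)]
  congr 1
  split_ifs with h
  · exact ZMod.χ₄_nat_one_mod_four h
  · have h2 := Nat.odd_iff.1 (md_odd hT)
    exact ZMod.χ₄_nat_three_mod_four (by omega)

lemma c2_refl (n : ℕ) {M d : ℕ} (hM : 8 ∣ M) (hd : d ≤ M) :
    c2 n ((M - d : ℕ) : ℤ) = (if n % 16 = 4 ∨ n % 32 = 8 then -1 else 1) * c2 n d := by
  rw [← c2_neg, Nat.cast_sub hd]
  obtain ⟨k, hk⟩ := hM
  subst hk
  unfold c2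
  have h1 : (((8 * k : ℕ) : ℤ) - d) % 2 = (-(d : ℤ)) % 2 := by push_cast; omega
  have h2 : (((8 * k : ℕ) : ℤ) - d) % 4 = (-(d : ℤ)) % 4 := by push_cast; omega
  have h3 : (((8 * k : ℕ) : ℤ) - d) % 8 = (-(d : ℤ)) % 8 := by push_cast; omega
  rw [h1, h2, h3]

end Pool.Agent.N609.CNF
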