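import Pool.Agent.N609.CNF.EvChar

/-!
# Even discriminants: the genus decomposition
-/

set_option autoImplicit false

namespace Pool.Agent.N609.CNF

open Finset ArithmeticFunction
open Pool.Agent.N855.CNF (ps mu ch ch_one ch_mul ch_pow OP md md_pos md_odd ch_jac cA cA_apply
  cA_mult eA eA_apply eA_mult eta eta_pow eta_ne eta_self conv_pow ch_empty ch_zero ch_sq ch_split
  ch_erase)
open Pool.Agent.N969.P15 (c2 Ev chE)

/-- the odd primes dividing `n` -/
def po (n : ℕ) : Finset ℕ := n.primeFactors.erase 2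

lemma po_two_pow {a k : ℕ} (hk : k ≠ 0) (ha : a % 2 = 1) : po (2 ^ k * a) = a.primeFactors := by
  unfold po
  rw [Nat.primeFactors_mul (by positivity) (by omega), Nat.primeFactors_prime_pow hk Nat.prime_two]
  ext p
  simp only [mem_erase, mem_union, mem_singleton]
  constructor
  · rintro ⟨h1, h2 | h2⟩
    · exact absurd h2 h1
    · exact h2
  · intro h
    refine ⟨?_, Or.inr h⟩
    rintro rfl
    have := Nat.dvd_of_mem_primeFactors h
    omega

lemma po_OP (n : ℕ) : OP (po n) := fun _ hp =>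
  ⟨Nat.prime_of_mem_primeFactors (mem_of_mem_erase hp), ne_of_mem_erase hp⟩

/-- the three types of even discriminants -/
lemma ev_cases {n : ℕ} (h : Ev n) :
    (n % 16 = 4 ∧ n = 4 * md (po n) ∧ md (po n) % 4 = 1) ∨
    (n % 32 = 8 ∧ n = 8 * md (po n) ∧ md (po n) % 4 = 1) ∨
    (n % 32 = 24 ∧ n = 8 * md (po n) ∧ md (po n) % 4 = 3) := by
  obtain ⟨m, rfl, hm, h1 | h2⟩ := h
  · left
    have h3 : po (4 * m) = m.primeFactors := by
      have := po_two_pow (a := m) (k := 2) (by norm_num) (by omega)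
      rwa [show (2 ^ 2 : ℕ) = 4 by norm_num] at this
    have h4 : md (po (4 * m)) = m := by
      rw [h3]; exact Nat.prod_primeFactors_of_squarefree hm
    rw [h4]
    omega
  · right
    obtain ⟨a, rfl⟩ : ∃ a, m = 2 * a := ⟨m / 2, by omega⟩
    have ha : a % 2 = 1 := by omega
    have hsa : Squarefree a := hm.squarefree_of_dvd ⟨2, by ring⟩
    have h3 : po (4 * (2 * a)) = a.primeFactors := by
      have := po_two_pow (a := a) (k := 3) (by norm_num) (by omega)
      rwa [show (2 ^ 3 * a : ℕ) = 4 * (2 * a) by ring] at this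
    have h4 : md (po (4 * (2 * a))) = a := by
      rw [h3]; exact Nat.prod_primeFactors_of_squarefree hsa
    rw [h4]
    have : a % 4 = 1 ∨ a % 4 = 3 := by omega
    rcases this with h5 | h5
    · left; omega
    · right; omega

lemma hc_md {n : ℕ} (h : Ev n) : 2 * (hc n * md (po n)) = n := by
  unfold hc
  rcases ev_cases h with ⟨h1, h2, h3⟩ | ⟨h1, h2, h3⟩ | ⟨h1, h2, h3⟩
  · rw [if_pos h1]; omega
  · rw [if_neg (by omega)]; omega
  · rw [if_neg (by omega)]; omega

lemma md_erase {S : Finset ℕ} {p : ℕ} (h : p ∈ S) : p * md (S.erase p) = md S := by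
  unfold md; exact mul_prod_erase S (fun q => q) h

/-- reciprocity -/
lemma recipE {n p : ℕ} (h : Ev n) (hp : p ∈ po n) :
    jacobiSym ((n / p : ℕ) : ℤ) p = c2 n p * ch ((po n).erase p) p := by
  have hOP := po_OP n
  have hOe : OP ((po n).erase p) := fun q hq => hOP q (mem_of_mem_erase hq)
  have hpp := (hOP p hp).1
  have hpo : Odd p := hpp.odd_of_ne_two (hOP p hp).2
  set a := md ((po n).erase p) with ha
  have hao : Odd a := md_odd hOe
  have hmul := md_erase hp
  rw [← ha] at hmul
  rw [ch_jac hOe, ← ha]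
  have hj4 : jacobiSym 4 p = 1 := jacobiSym.at_four hpo
  have h2 : jacobiSym 2 p = if p % 8 = 1 ∨ p % 8 = 7 then 1 else -1 := by
    rw [jacobiSym.at_two hpo, ZMod.χ₈_nat_eq_if_mod_eight, if_neg (by
      have := Nat.odd_iff.1 hpo; omega)]
  have hp2 := Nat.odd_iff.1 hpo
  have ha2 := Nat.odd_iff.1 hao
  have hpa : p % 4 * (a % 4) % 4 = md (po n) % 4 := by
    rw [← hmul]; exact (Nat.mul_mod p a 4).symm
  have hrec : jacobiSym (a : ℤ) p =
      (if p % 4 = 3 ∧ a % 4 = 3 then -1 else 1) * jacobiSym (p : ℤ) a := by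
    split_ifs with h3
    · rw [jacobiSym.quadratic_reciprocity_three_mod_four h3.2 h3.1]; ring
    · rw [one_mul]
      by_cases h4 : p % 4 = 1
      · exact (jacobiSym.quadratic_reciprocity_one_mod_four h4 hao).symm
      · exact jacobiSym.quadratic_reciprocity_one_mod_four (by omega) hpo
  have p4 : p % 4 = 1 ∨ p % 4 = 3 := by omega
  have a4 : a % 4 = 1 ∨ a % 4 = 3 := by omega
  rcases ev_cases h with ⟨h1, hn, h3⟩ | ⟨h1, hn, h3⟩ | ⟨h1, hn, h3⟩
  · have hq : n / p = 4 * a := by
      conv_lhs => rw [hn, ← hmul]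
      rw [show 4 * (p * a) = p * (4 * a) by ring, Nat.mul_div_cancel_left _ hpp.pos]
    rw [hq, Nat.cast_mul, jacobiSym.mul_left, Nat.cast_ofNat, hj4, one_mul, hrec]
    congr 1
    unfold c2
    rw [h3] at hpa
    rcases p4 with p4 | p4 <;> rcases a4 with a4 | a4 <;> rw [p4, a4] at hpa <;>
      split_ifs <;> omega
  · have hq : n / p = 4 * (2 * a) := by
      conv_lhs => rw [hn, ← hmul]
      rw [show 8 * (p * a) = p * (4 * (2 * a)) by ring, Nat.mul_div_cancel_left _ hpp.pos]
    rw [hq, Nat.cast_mul, Nat.cast_mul, jacobiSym.mul_left, jacobiSym.mul_left, Nat.cast_ofNat,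
      Nat.cast_ofNat, hj4, one_mul, hrec, h2, ← mul_assoc]
    congr 1
    unfold c2
    rw [h3] at hpa
    rcases p4 with p4 | p4 <;> rcases a4 with a4 | a4 <;> rw [p4, a4] at hpa <;>
      split_ifs <;> omega
  · have hq : n / p = 4 * (2 * a) := by
      conv_lhs => rw [hn, ← hmul]
      rw [show 8 * (p * a) = p * (4 * (2 * a)) by ring, Nat.mul_div_cancel_left _ hpp.pos]
    rw [hq, Nat.cast_mul, Nat.cast_mul, jacobiSym.mul_left, jacobiSym.mul_left, Nat.cast_ofNat,
      Nat.cast_ofNat, hj4, one_mul, hrec, h2, ← mul_assoc]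
    congr 1
    unfold c2
    rw [h3] at hpa
    rcases p4 with p4 | p4 <;> rcases a4 with a4 | a4 <;> rw [p4, a4] at hpa <;>
      split_ifs <;> omega

/-- the genus decomposition of the divisor sums -/
theorem conv_eqE {n : ℕ} (hn : Ev n) {S : Finset ℕ} (hS : S ⊆ po n) :
    (eA n S).pmul (cA ∅ * dA n (po n)) = cA S * dA n (po n \ S) := by
  set P := po n with hP
  have hPp : ∀ l ∈ P, l.Prime := fun l hl => (po_OP n l hl).1
  have hSp : ∀ l ∈ S, l.Prime := fun l hl => hPp l (hS hl)
  rw [IsMultiplicative.eq_iff_eq_on_prime_powers _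
    ((eA_mult n S).pmul ((cA_mult _).mul (dA_mult _ _))) _ ((cA_mult _).mul (dA_mult _ _))]
  intro p k hp
  rw [pmul_apply, conv_pow _ _ hp, conv_pow _ _ hp, eA_apply n S (pow_ne_zero k hp.ne_zero)]
  have e1 : ∀ (Q : Finset ℕ) (j : ℕ), cA Q (p ^ j) = ch Q p ^ j := fun Q j => by
    rw [cA_apply Q (pow_ne_zero j hp.ne_zero), ch_pow]
  have e2 : ∏ l ∈ S, eta n l (p ^ k) = (∏ l ∈ S, eta n l p) ^ k := by
    rw [← prod_pow]
    exact prod_congr rfl fun l _ => eta_pow n l hp.ne_zero k
  rw [e2]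
  simp only [e1, dA_pow, ch_empty, one_pow, one_mul]
  have hsp : dA n P p = ch S p * dA n (P \ S) p := by
    rw [dA_apply, dA_apply, ch_split hS p]; ring
  by_cases hpS : p ∈ S
  · have hpP : p ∈ P := hS hpS
    have hu : ch S p = 0 := ch_zero hp hpS
    have hh : ∏ l ∈ S, eta n l p = dA n (P \ S) p := by
      have h1 : ∏ l ∈ S, eta n l p = c2 n p * ch (P.erase p) p * ch (S.erase p) p := by
        rw [← mul_prod_erase S _ hpS, eta_self n hp, recipE hn hpP]
        congr 1
        apply prod_congr rfl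
        intro l hl
        exact eta_ne n hp (hSp l (mem_of_mem_erase hl)) (ne_of_mem_erase hl)
      have h4' : ch (P.erase p) p = ch (S.erase p) p * ch (P \ S) p := by
        have e : P.erase p \ S.erase p = P \ S := by
          ext q
          rw [Finset.mem_sdiff, Finset.mem_sdiff, mem_erase, mem_erase]
          constructor
          · rintro ⟨⟨h5, h6⟩, h7⟩
            exact ⟨h6, fun h8 => h7 ⟨h5, h8⟩⟩
          · rintro ⟨h5, h6⟩
            exact ⟨⟨fun e => h6 (e ▸ hpS), h5⟩, fun h8 => h6 h8.2⟩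
        rw [ch_split (S := S.erase p) (P := P.erase p) (erase_subset_erase p hS), e]
      have h5 : ch (S.erase p) p ^ 2 = 1 := by
        rcases ch_sq (fun l hl => hSp l (mem_of_mem_erase hl)) hp
          (notMem_erase p S) with h | h <;> rw [h] <;> norm_num
      rw [h1, h4', dA_apply]
      linear_combination c2 n p * ch (P \ S) p * h5
    rw [hh, hsp, hu, zero_mul]
    have s1 : ∑ x ∈ range (k + 1), (0 : ℤ) ^ (k - x) = 1 := by
      rw [sum_eq_single k]
      · simp
      · intro x hx hne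
        rw [mem_range] at hx
        exact zero_pow (by omega)
      · intro h; exact absurd (self_mem_range_succ k) h
    have s2 : ∑ x ∈ range (k + 1), (0 : ℤ) ^ x * dA n (P \ S) p ^ (k - x) =
        dA n (P \ S) p ^ k := by
      rw [sum_eq_single 0]
      · simp
      · intro x _ hne
        rw [zero_pow hne, zero_mul]
      · intro h; exact absurd (mem_range.2 (Nat.succ_pos k)) h
    rw [s1, s2, mul_one]
  · have hh : ∏ l ∈ S, eta n l p = ch S p := by
      unfold ch
      apply prod_congr rfl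
      intro l hl
      exact eta_ne n hp (hSp l hl) (fun e => hpS (e ▸ hl))
    rw [hh, hsp, mul_sum]
    apply sum_congr rfl
    intro x hx
    rw [mem_range] at hx
    have hu2 : ch S p ^ 2 = 1 := by
      rcases ch_sq hSp hp hpS with h | h <;> rw [h] <;> norm_num
    rw [mul_pow, ← mul_assoc, ← pow_add]
    have e3 : k + (k - x) = x + 2 * (k - x) := by omega
    rw [e3, pow_add, pow_mul, hu2, one_pow, mul_one]

end Pool.Agent.N609.CNF
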