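import Pool.Agent.N609.CNF.RamLoc

/-!
# The local densities of orthogonal pairs: even discriminants
-/

set_option autoImplicit false

namespace Pool.Agent.N609.CNF

open Finset ArithmeticFunction
open Pool.Agent.N969.P15 (tw tb c2 Ev)
open Pool.Agent.Z700 (hh fac)
open Pool.Agent.N855.CNF (ch ch_one ch_mul ch_pow ch_empty cA cA_apply cA_mult eta eA eA_apply
  ch_zero OP md md_pos md_odd ch_jac conv_pow)

/-- the character at an odd prime -/
lemma jac_negE {n l : ℕ} (h : Ev n) (hl : Odd l) :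
    jacobiSym (-(n : ℤ)) l = dA n (po n) l := by
  have hOP := po_OP n
  set a := md (po n) with ha
  have hao : Odd a := md_odd hOP
  rw [dA_apply, ch_jac hOP, ← ha]
  have hj4 : jacobiSym 4 l = 1 := jacobiSym.at_four hl
  have hl2 := Nat.odd_iff.1 hl
  have ha2 := Nat.odd_iff.1 hao
  have h1' : jacobiSym (-1) l = if l % 4 = 1 then 1 else -1 := by
    rw [jacobiSym.at_neg_one hl, ZMod.χ₄_nat_eq_if_mod_four, if_neg (by omega)]
  have h2 : jacobiSym 2 l = if l % 8 = 1 ∨ l % 8 = 7 then 1 else -1 := by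
    rw [jacobiSym.at_two hl, ZMod.χ₈_nat_eq_if_mod_eight, if_neg (by omega)]
  have hrec : jacobiSym (a : ℤ) l =
      (if l % 4 = 3 ∧ a % 4 = 3 then -1 else 1) * jacobiSym (l : ℤ) a := by
    split_ifs with h3
    · rw [jacobiSym.quadratic_reciprocity_three_mod_four h3.2 h3.1]; ring
    · rw [one_mul]
      by_cases h4 : l % 4 = 1
      · exact (jacobiSym.quadratic_reciprocity_one_mod_four h4 hao).symm
      · exact jacobiSym.quadratic_reciprocity_one_mod_four (by omega) hl
  have l4 : l % 4 = 1 ∨ l % 4 = 3 := by omega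
  rcases ev_cases h with ⟨h1, hn, h3⟩ | ⟨h1, hn, h3⟩ | ⟨h1, hn, h3⟩
  · rw [← ha] at hn h3
    have e : (-(n : ℤ)) = (-1) * 4 * (a : ℤ) := by rw [hn]; push_cast; ring
    have e2 : jacobiSym (-(n : ℤ)) l = jacobiSym ((-1) * 4 * (a : ℤ)) l := by rw [e]
    rw [e2, jacobiSym.mul_left, jacobiSym.mul_left, hj4, hrec, h1', ← mul_assoc]
    congr 1
    unfold c2
    split_ifs <;> omega
  · rw [← ha] at hn h3
    have e : (-(n : ℤ)) = (-1) * 4 * 2 * (a : ℤ) := by rw [hn]; push_cast; ring
    have e2 : jacobiSym (-(n : ℤ)) l = jacobiSym ((-1) * 4 * 2 * (a : ℤ)) l := by rw [e]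
    rw [e2, jacobiSym.mul_left, jacobiSym.mul_left, jacobiSym.mul_left, hj4, hrec, h1', h2,
      ← mul_assoc]
    congr 1
    unfold c2
    split_ifs <;> omega
  · rw [← ha] at hn h3
    have e : (-(n : ℤ)) = (-1) * 4 * 2 * (a : ℤ) := by rw [hn]; push_cast; ring
    have e2 : jacobiSym (-(n : ℤ)) l = jacobiSym ((-1) * 4 * 2 * (a : ℤ)) l := by rw [e]
    rw [e2, jacobiSym.mul_left, jacobiSym.mul_left, jacobiSym.mul_left, hj4, hrec, h1', h2,
      ← mul_assoc]
    congr 1
    unfold c2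
    split_ifs <;> omega

/-- the Euler factor -/
def RE (n m p : ℕ) : ℤ := ∑ j ∈ range (m.factorization p + 1), dA n (po n) p ^ j

lemma RE_one {n m p : ℕ} (h : m.factorization p = 0) : RE n m p = 1 := by
  unfold RE; rw [h]; simp

lemma RE_zero {n m p : ℕ} (h : dA n (po n) p = 0) : RE n m p = 1 := by
  unfold RE
  rw [h, sum_eq_single 0]
  · simp
  · intro j _ hj; exact zero_pow hj
  · intro h'; exact absurd (mem_range.2 (Nat.succ_pos _)) h'

lemma conv_RE {n m : ℕ} (hm : m ≠ 0) (U : Finset ℕ) (hU : m.primeFactors ⊆ U) :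
    (cA ∅ * dA n (po n)) m = ∏ p ∈ U, RE n m p := by
  rw [IsMultiplicative.multiplicative_factorization _ ((cA_mult _).mul (dA_mult _ _)) hm,
    Finsupp.prod, Nat.support_factorization]
  have h1 : ∀ p ∈ m.primeFactors, (cA ∅ * dA n (po n)) (p ^ m.factorization p) =
      RE n m p := by
    intro p hp
    have hpp := Nat.prime_of_mem_primeFactors hp
    rw [conv_pow _ _ hpp]
    unfold RE
    rw [← sum_range_reflect]
    apply sum_congr rfl
    intro j hj
    rw [mem_range] at hj
    rw [cA_apply _ (pow_ne_zero _ hpp.ne_zero), ch_empty, dA_pow, one_mul]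
    congr 1
    omega
  rw [prod_congr rfl h1]
  apply prod_subset hU
  intro p _ hp
  apply RE_one
  exact Finsupp.notMem_support_iff.1 (by rw [Nat.support_factorization]; exact hp)

lemma ev_sq {n l : ℕ} (h : Ev n) (hl : l.Prime) (hl2 : l ≠ 2) : ¬ l * l ∣ n := by
  rintro ⟨k, hk⟩
  obtain ⟨m, rfl, hm, _⟩ := h
  have h1 : l * l ∣ m := by
    have h2 : Nat.Coprime (l * l) 4 := by
      have := (Nat.coprime_primes hl Nat.prime_two).2 hl2
      exact Nat.Coprime.mul_left (Nat.Coprime.pow_right 2 this) (Nat.Coprime.pow_right 2 this)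
    exact h2.dvd_of_dvd_mul_left ⟨k, hk⟩
  exact hl.one_lt.ne' (Nat.isUnit_iff.1 (hm l h1))

lemma ev_ne {n : ℕ} (h : Ev n) : n ≠ 0 := by
  obtain ⟨m, rfl, hm, _⟩ := h
  have := hm.ne_zero
  omega

/-- the odd factors away from `q` -/
lemma prodE {q w n m : ℕ} (h : Ev n) (hw0 : w ≠ 0) (hw : ∀ l : ℕ, l.Prime → l ≠ q → ¬ l ∣ w)
    (hm : m ≠ 0) : ∏ l ∈ ((n * (4 * w * m)).primeFactors.erase 2).erase q,
      fac n (n * (4 * w * m)) l = (∏ l ∈ (po n).erase q, (1 + hh n (n * (4 * w * m)) l)) *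
      ∏ l ∈ ((n * (4 * w * m)).primeFactors.erase 2).erase q, RE n m l := by
  have hn0 := ev_ne h
  have hw1 : 0 < w := Nat.pos_of_ne_zero hw0
  have h20 : (4 * w * m) ≠ 0 := by positivity
  set D := n * (4 * w * m) with hD
  have hD0 : D ≠ 0 := mul_ne_zero hn0 h20
  set U := D.primeFactors with hU
  have hPU : n.primeFactors ⊆ U := Nat.primeFactors_mono ⟨4 * w * m, rfl⟩ hD0
  have hfac : ∀ l ∈ (U.erase 2).erase q, fac n D l =
      (if l ∈ po n then 1 + hh n D l else 1) * RE n m l := by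
    intro l hl
    have hl5 : l ≠ q := ne_of_mem_erase hl
    have hl2 : l ≠ 2 := ne_of_mem_erase (mem_of_mem_erase hl)
    have hlU := mem_of_mem_erase (mem_of_mem_erase hl)
    have hlp := Nat.prime_of_mem_primeFactors hlU
    unfold fac
    by_cases hln : l ∣ n
    · have hlP : l ∈ po n := mem_erase.2 ⟨hl2, Nat.mem_primeFactors.2 ⟨hlp, hln, hn0⟩⟩
      have h0 : dA n (po n) l = 0 := by rw [dA_apply, ch_zero hlp hlP, mul_zero]
      rw [if_pos hln, if_pos hlP, RE_zero h0, mul_one]
    · have hlP : l ∉ po n := fun h => hln (Nat.dvd_of_mem_primeFactors (mem_of_mem_erase h))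
      rw [if_neg hln, if_neg hlP, one_mul]
      unfold RE
      have hv : D.factorization l = m.factorization l := by
        rw [hD, Nat.factorization_mul hn0 h20, Nat.factorization_mul (by positivity) hm]
        simp only [Finsupp.add_apply]
        have h4 : (4 * w).factorization l = 0 := by
          apply Nat.factorization_eq_zero_of_not_dvd
          intro h
          have h3 : l ∣ 2 ^ 2 * w := by norm_num; exact h
          rcases (Nat.Prime.dvd_mul hlp).1 h3 with h4' | h4'
          · exact hl2 ((Nat.prime_dvd_prime_iff_eq hlp Nat.prime_two).1 (hlp.dvd_of_dvd_pow h4'))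
          · exact hw l hlp hl5 h4'
        rw [h4, Nat.factorization_eq_zero_of_not_dvd hln]
        ring
      have hlo : Odd l := hlp.odd_of_ne_two hl2
      rw [hv, jac_negE h hlo]
  rw [prod_congr rfl hfac, prod_mul_distrib]
  congr 1
  rw [← prod_filter]
  congr 1
  ext l
  constructor
  · intro hl
    rw [mem_filter] at hl
    exact mem_erase.2 ⟨ne_of_mem_erase hl.1, hl.2⟩
  · intro hl
    have h1 := mem_of_mem_erase hl
    have h2 : l ∈ n.primeFactors := mem_of_mem_erase h1
    exact mem_filter.2 ⟨mem_erase.2 ⟨ne_of_mem_erase hl,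
      mem_erase.2 ⟨ne_of_mem_erase h1, hPU h2⟩⟩, h1⟩

/-- all factors -/
lemma convE_split {q w n m : ℕ} (h : Ev n) (hq : q.Prime) (hq2 : q ≠ 2) (hw0 : w ≠ 0)
    (hqD : q ∣ n * (4 * w * m)) (hm : m ≠ 0) :
    (cA ∅ * dA n (po n)) m = RE n m q *
      ∏ l ∈ ((n * (4 * w * m)).primeFactors.erase 2).erase q, RE n m l := by
  have hn0 := ev_ne h
  have hw1 : 0 < w := Nat.pos_of_ne_zero hw0
  have h20 : (4 * w * m) ≠ 0 := by positivity
  set D := n * (4 * w * m) with hD
  have hD0 : D ≠ 0 := mul_ne_zero hn0 h20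
  have hmU : m.primeFactors ⊆ D.primeFactors :=
    Nat.primeFactors_mono ⟨n * (4 * w), by rw [hD]; ring⟩ hD0
  have h2U : 2 ∈ D.primeFactors := by
    rw [Nat.mem_primeFactors]
    exact ⟨Nat.prime_two, ⟨n * (2 * w * m), by rw [hD]; ring⟩, hD0⟩
  have hqU : q ∈ D.primeFactors.erase 2 := by
    rw [mem_erase, Nat.mem_primeFactors]
    exact ⟨hq2, hq, hqD, hD0⟩
  rw [conv_RE hm D.primeFactors hmU, ← mul_prod_erase _ _ h2U, ← mul_prod_erase _ _ hqU]
  have h2 : dA n (po n) 2 = 0 := by rw [dA_apply, c2_even (by norm_num), zero_mul]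
  rw [RE_zero h2, one_mul]

/-- the local densities for two even norms -/
def locqE (q n : ℕ) (b : ℤ) (D : ℕ) : ℤ :=
  if Odd (D.factorization q) then
    tb b * ∏ l ∈ (D.primeFactors.erase 2).erase q, fac n D l
  else 0

/-- the local densities for two even norms, `q ∣ n` -/
def locrE (q n : ℕ) (b : ℤ) (D : ℕ) : ℤ :=
  if q ∣ D ∧ hh n D q = -1 then
    tb b * ∏ l ∈ (D.primeFactors.erase 2).erase q, fac n D l
  else 0

/-- the local densities of orthogonal pairs, even norms -/
theorem loc_eqE {q n m : ℕ} (hq : q.Prime) (hq2 : q ≠ 2) (h : Ev n)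
    (h5 : jacobiSym (-(n : ℤ)) q = -1) (hm : m ≠ 0) :
    locqE q n 0 (n * (4 * q * m)) = 2 * ∑ S ∈ (po n).powerset,
      (∏ l ∈ S, jacobiSym (-(q : ℤ)) l) * (cA S * dA n (po n \ S)) m := by
  have hn0 := ev_ne h
  have hq0 := hq.pos
  have hqn : ¬ q ∣ n := by
    intro hd
    have : NeZero q := ⟨hq.ne_zero⟩
    have h1 : jacobiSym (-(n : ℤ)) q = 0 := by
      rw [jacobiSym.eq_zero_iff_not_coprime, Int.neg_gcd]
      rw [Int.gcd_natCast_natCast, Nat.gcd_eq_right hd]
      exact hq.one_lt.ne'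
    rw [h1] at h5
    norm_num at h5
  have hqP : q ∉ po n := fun h => hqn (Nat.dvd_of_mem_primeFactors (mem_of_mem_erase h))
  have hw : ∀ l : ℕ, l.Prime → l ≠ q → ¬ l ∣ q := fun l hl hlq hd =>
    hlq ((Nat.prime_dvd_prime_iff_eq hl hq).1 hd)
  have hp := prodE h hq.ne_zero hw hm
  have hs := convE_split h hq hq2 hq.ne_zero (w := q) (m := m) ⟨n * (4 * m), by ring⟩ hm
  set D := n * (4 * q * m) with hD
  have hv5 : D.factorization q = 1 + m.factorization q := by
    rw [hD, Nat.factorization_mul hn0 (by positivity), Nat.factorization_mul (by positivity) hm,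
      Nat.factorization_mul (by norm_num) hq.ne_zero]
    simp only [Finsupp.add_apply]
    have h4 : (4 : ℕ).factorization q = 0 := by
      apply Nat.factorization_eq_zero_of_not_dvd
      intro h
      have h3 : q ∣ 2 ^ 2 := by norm_num; exact h
      exact hq2 ((Nat.prime_dvd_prime_iff_eq hq Nat.prime_two).1 (hq.dvd_of_dvd_pow h3))
    rw [h4, hq.factorization_self, Nat.factorization_eq_zero_of_not_dvd hqn]
    ring
  have hRq : RE n m q = if Odd (D.factorization q) then 1 else 0 := by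
    unfold RE
    rw [hv5, ← jac_negE h (hq.odd_of_ne_two hq2), h5]
    generalize m.factorization q = k
    induction k with
    | zero => simp
    | succ k ih =>
      rw [sum_range_succ, ih]
      rcases Nat.even_or_odd k with hk | hk
      · have o1 : Odd (1 + k) := by rw [add_comm]; exact hk.add_one
        have o2 : ¬ Odd (1 + (k + 1)) := by
          rw [Nat.not_odd_iff_even, show 1 + (k + 1) = k + 2 by ring]
          exact hk.add (by decide)
        rw [if_pos o1, if_neg o2, (hk.add_one).neg_one_pow]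
        ring
      · have o1 : ¬ Odd (1 + k) := by rw [add_comm, Nat.not_odd_iff_even]; exact hk.add_one
        have o2 : Odd (1 + (k + 1)) := by
          rw [show 1 + (k + 1) = k + 2 by ring]
          exact hk.add_even (by decide)
        rw [if_neg o1, if_pos o2, (hk.add_one).neg_one_pow]
        ring
  have hmain : locqE q n 0 D = 2 * ((∏ l ∈ po n, (1 + hh n D l)) * (cA ∅ * dA n (po n)) m) := by
    rw [hs, hRq]
    unfold locqE
    rw [hp, erase_eq_of_notMem hqP]
    have : tb 0 = 2 := by simp [tb]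
    rw [this]
    split_ifs <;> ring
  have hhl : ∀ l ∈ po n, hh n D l = jacobiSym (-(q : ℤ)) l * eta n l m := by
    intro l hl
    have hlp := (po_OP n l hl).1
    have hl2 := (po_OP n l hl).2
    exact hh_gen (w := q) (n := n) (m := m) (l := l) hlp hl2
      (Nat.dvd_of_mem_primeFactors (mem_of_mem_erase hl)) (ev_sq h hlp hl2) hn0 hq.ne_zero
      (hw l hlp (fun e => hqP (e ▸ hl))) hm
  rw [hmain, prod_one_add, sum_mul]
  congr 1
  apply sum_congr rfl
  intro S hS
  rw [mem_powerset] at hS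
  have e1 : ∏ l ∈ S, hh n D l = (∏ l ∈ S, jacobiSym (-(q : ℤ)) l) * eA n S m := by
    rw [eA_apply n S hm, ← prod_mul_distrib]
    exact prod_congr rfl fun l hl => hhl l (hS hl)
  rw [e1, mul_assoc]
  congr 1
  rw [← conv_eqE h hS, pmul_apply]

/-- the other norms -/
theorem loc_zeroE {q n k : ℕ} (hq : q.Prime) (hq2 : q ≠ 2) (hn0 : n ≠ 0) (h5 : ¬ q ∣ n)
    (hk : k ≠ 0) (h4 : 4 ∣ k) (h : ¬ 4 * q ∣ k) : locqE q n 0 (n * k) = 0 := by
  have hv5 : (n * k).factorization q = k.factorization q := by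
    rw [Nat.factorization_mul hn0 hk, Finsupp.add_apply,
      Nat.factorization_eq_zero_of_not_dvd h5, zero_add]
  unfold locqE
  split_ifs with hodd
  · rw [hv5] at hodd
    exfalso
    have h5k : q ∣ k := by
      by_contra h5k
      rw [Nat.factorization_eq_zero_of_not_dvd h5k] at hodd
      exact absurd hodd (by decide)
    exact h (Nat.Coprime.mul_dvd_of_dvd_of_dvd
      (Nat.Coprime.pow_left 2 ((Nat.coprime_primes Nat.prime_two hq).2 (Ne.symm hq2))) h4 h5k)
  · rfl

/-- the local densities of orthogonal pairs, even norms, `q ∣ n` -/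
theorem loc_eqRE {q n m : ℕ} (hq : q.Prime) (hq2 : q ≠ 2) (h : Ev n) (h5 : q ∣ n) (hm : m ≠ 0) :
    locrE q n 0 (n * (4 * m)) = ∑ S ∈ (po n).powerset,
      (∏ l ∈ S, er q l) * (cA S * dA n (po n \ S)) m := by
  have hn0 := ev_ne h
  have hqP : q ∈ po n := mem_erase.2 ⟨hq2, Nat.mem_primeFactors.2 ⟨hq, h5, hn0⟩⟩
  have hw : ∀ l : ℕ, l.Prime → l ≠ q → ¬ l ∣ 1 := fun l hl _ hd =>
    hl.one_lt.ne' (Nat.dvd_one.1 hd)
  have hp := prodE (q := q) (w := 1) h one_ne_zero hw hm
  have hs := convE_split (w := 1) h hq hq2 one_ne_zero (m := m) (h5.trans ⟨4 * 1 * m, rfl⟩) hm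
  rw [mul_one] at hp hs
  set D := n * (4 * m) with hD
  have hRq : RE n m q = 1 := RE_zero (by rw [dA_apply, ch_zero hq hqP, mul_zero])
  have hhl : ∀ l ∈ po n, hh n D l = jacobiSym (-1) l * eta n l m := by
    intro l hl
    have hlp := (po_OP n l hl).1
    have hl2 := (po_OP n l hl).2
    have := hh_gen (w := 1) (n := n) (m := m) (l := l) hlp hl2
      (Nat.dvd_of_mem_primeFactors (mem_of_mem_erase hl)) (ev_sq h hlp hl2) hn0 one_ne_zero
      (fun hd => hlp.one_lt.ne' (Nat.dvd_one.1 hd)) hm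
    rw [mul_one, Nat.cast_one] at this
    exact this
  have hqs : hh n D q = 1 ∨ hh n D q = -1 := by
    rw [hhl q hqP]
    have h1 := eta_sign (m := m) hq h5 (ev_sq h hq hq2) hm
    have h2 : jacobiSym (-1) q = 1 ∨ jacobiSym (-1) q = -1 := by
      rw [← sq_eq_one_iff]
      apply jacobiSym.sq_one
      simp
    rcases h1 with h1 | h1 <;> rcases h2 with h2 | h2 <;> rw [h1, h2] <;> norm_num
  have hqD : q ∣ D := h5.trans ⟨4 * m, rfl⟩
  have hmain : locrE q n 0 D = (2 * ((if hh n D q = -1 then 1 else 0) *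
      ∏ l ∈ (po n).erase q, (1 + hh n D l))) * (cA ∅ * dA n (po n)) m := by
    rw [hs, hRq]
    unfold locrE
    rw [hp]
    have : tb 0 = 2 := by simp [tb]
    rw [this]
    by_cases h : hh n D q = -1
    · rw [if_pos ⟨hqD, h⟩, if_pos h]; ring
    · rw [if_neg (fun h' => h h'.2), if_neg h]; ring
  rw [hmain, two_ind hqP _ hqs, sum_mul]
  apply sum_congr rfl
  intro S hS
  rw [mem_powerset] at hS
  have e1 : ∏ l ∈ S, ((if l = q then -1 else 1) * hh n D l) = (∏ l ∈ S, er q l) * eA n S m := by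
    rw [eA_apply n S hm, ← prod_mul_distrib]
    apply prod_congr rfl
    intro l hl
    rw [hhl l (hS hl)]
    unfold er
    ring
  rw [e1, mul_assoc]
  congr 1
  rw [← conv_eqE h hS, pmul_apply]

end Pool.Agent.N609.CNF
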