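import Mathlib
import Pool.Agent.N855.CNF.Loc

/-!
# The half sum of an odd quadratic character
-/

set_option autoImplicit false

namespace Pool.Agent.N609.CNF

open Finset
open Pool.Agent.N855.CNF (jac_two)

lemma chi_refl {n : ℕ} (h4 : n % 4 = 3) {u : ℕ} (hu : u ≤ n) :
    jacobiSym ((n - u : ℕ) : ℤ) n = - jacobiSym (u : ℤ) n := by
  rw [Nat.cast_sub hu]
  have h1 : jacobiSym ((n : ℤ) - u) n = jacobiSym (-(u : ℤ)) n := by
    rw [jacobiSym.mod_left ((n : ℤ) - u), jacobiSym.mod_left (-(u : ℤ))]
    congr 1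
    rw [show (n : ℤ) - u = -(u : ℤ) + n by ring, Int.add_emod_right]
  rw [h1, neg_eq_neg_one_mul, jacobiSym.mul_left, jacobiSym.at_neg_one (Nat.odd_iff.2 (by omega)),
    ZMod.χ₄_nat_three_mod_four h4, neg_one_mul]

/-- the half sum -/
theorem half {n : ℕ} (h4 : n % 4 = 3) :
    (2 - (if n % 8 = 7 then (1 : ℤ) else -1)) * ∑ u ∈ range n, (u : ℤ) * jacobiSym (u : ℤ) n =
      -(n * ∑ u ∈ (range n).filter (fun u => 2 * u < n), jacobiSym (u : ℤ) n) := by
  set e : ℤ := if n % 8 = 7 then (1 : ℤ) else -1 with he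
  have hee : e * e = 1 := by rw [he]; split_ifs <;> norm_num
  set A := (range n).filter (fun u => 2 * u < n) with hA
  have h0 : jacobiSym ((0 : ℕ) : ℤ) n = 0 := by
    rw [Nat.cast_zero]; exact jacobiSym.zero_left (by omega)
  have h2 : ∀ v : ℕ, jacobiSym ((2 * v : ℕ) : ℤ) n = e * jacobiSym (v : ℤ) n := by
    intro v
    rw [Nat.cast_mul, jacobiSym.mul_left, Nat.cast_ofNat, jac_two h4]
  have h0A : 0 ∈ A := by rw [hA, mem_filter, mem_range]; omega
  have s1 : ∑ u ∈ range n, (u : ℤ) * jacobiSym (u : ℤ) n =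
      ∑ u ∈ A, (2 * (u : ℤ) - n) * jacobiSym (u : ℤ) n := by
    rw [← sum_filter_add_sum_filter_not (range n) (fun u => 2 * u < n)]
    have h3 : ∑ u ∈ (range n).filter (fun u => ¬ 2 * u < n), (u : ℤ) * jacobiSym (u : ℤ) n =
        ∑ u ∈ A.erase 0, ((u : ℤ) - n) * jacobiSym (u : ℤ) n := by
      refine sum_nbij' (fun u => n - u) (fun u => n - u) ?_ ?_ ?_ ?_ ?_
      · intro u hu
        rw [mem_filter, mem_range] at hu
        rw [mem_erase, hA, mem_filter, mem_range]
        omega
      · intro u hu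
        rw [mem_erase, hA, mem_filter, mem_range] at hu
        rw [mem_filter, mem_range]
        omega
      · intro u hu
        rw [mem_filter, mem_range] at hu
        show n - (n - u) = u
        omega
      · intro u hu
        rw [mem_erase, hA, mem_filter, mem_range] at hu
        show n - (n - u) = u
        omega
      · intro u hu
        rw [mem_filter, mem_range] at hu
        rw [chi_refl h4 (by omega : u ≤ n), Nat.cast_sub (by omega)]
        ring
    rw [h3, ← sum_erase (s := A) (a := 0) (f := fun u : ℕ => (u : ℤ) * jacobiSym (u : ℤ) n)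
      (by rw [h0, mul_zero]), ← sum_erase (s := A) (a := 0)
      (f := fun u : ℕ => (2 * (u : ℤ) - n) * jacobiSym (u : ℤ) n) (by rw [h0, mul_zero]),
      ← sum_add_distrib]
    exact sum_congr rfl fun u _ => by ring
  have s2 : ∑ u ∈ range n, (u : ℤ) * jacobiSym (u : ℤ) n =
      e * ∑ u ∈ A, (4 * (u : ℤ) - n) * jacobiSym (u : ℤ) n := by
    rw [← sum_filter_add_sum_filter_not (range n) (fun u => u % 2 = 0)]
    have h3 : ∑ u ∈ (range n).filter (fun u => u % 2 = 0), (u : ℤ) * jacobiSym (u : ℤ) n =
        ∑ u ∈ A, e * (2 * (u : ℤ) * jacobiSym (u : ℤ) n) := by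
      refine sum_nbij' (fun u => u / 2) (fun u => 2 * u) ?_ ?_ ?_ ?_ ?_
      · intro u hu
        rw [mem_filter, mem_range] at hu
        rw [hA, mem_filter, mem_range]
        omega
      · intro u hu
        rw [hA, mem_filter, mem_range] at hu
        rw [mem_filter, mem_range]
        omega
      · intro u hu
        rw [mem_filter, mem_range] at hu
        show 2 * (u / 2) = u
        omega
      · intro u hu
        show 2 * u / 2 = u
        omega
      · intro u hu
        rw [mem_filter, mem_range] at hu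
        obtain ⟨v, rfl⟩ : ∃ v, u = 2 * v := ⟨u / 2, by omega⟩
        rw [h2, Nat.mul_div_cancel_left v (by norm_num)]
        push_cast
        ring
    have h5 : ∑ u ∈ (range n).filter (fun u => ¬ u % 2 = 0), (u : ℤ) * jacobiSym (u : ℤ) n =
        ∑ u ∈ A.erase 0, e * ((2 * (u : ℤ) - n) * jacobiSym (u : ℤ) n) := by
      refine sum_nbij' (fun u => (n - u) / 2) (fun u => n - 2 * u) ?_ ?_ ?_ ?_ ?_
      · intro u hu
        rw [mem_filter, mem_range] at hu
        rw [mem_erase, hA, mem_filter, mem_range]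
        omega
      · intro u hu
        rw [mem_erase, hA, mem_filter, mem_range] at hu
        rw [mem_filter, mem_range]
        omega
      · intro u hu
        rw [mem_filter, mem_range] at hu
        show n - 2 * ((n - u) / 2) = u
        omega
      · intro u hu
        rw [mem_erase, hA, mem_filter, mem_range] at hu
        show (n - (n - 2 * u)) / 2 = u
        omega
      · intro u hu
        rw [mem_filter, mem_range] at hu
        obtain ⟨v, hv⟩ : ∃ v, n - u = 2 * v := ⟨(n - u) / 2, by omega⟩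
        have hu' : u = n - 2 * v := by omega
        rw [hv, Nat.mul_div_cancel_left v (by norm_num), hu', chi_refl h4 (by omega), h2,
          Nat.cast_sub (by omega)]
        push_cast
        ring
    rw [h3, h5, ← sum_erase (s := A) (a := 0)
      (f := fun u : ℕ => e * (2 * (u : ℤ) * jacobiSym (u : ℤ) n)) (by rw [h0]; ring),
      ← sum_erase (s := A) (a := 0)
      (f := fun u : ℕ => (4 * (u : ℤ) - n) * jacobiSym (u : ℤ) n) (by rw [h0, mul_zero]),
      ← sum_add_distrib, mul_sum]
    exact sum_congr rfl fun u _ => by ring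
  set S := ∑ u ∈ range n, (u : ℤ) * jacobiSym (u : ℤ) n with hS
  have s3 : S = 2 * (∑ u ∈ A, (u : ℤ) * jacobiSym (u : ℤ) n) -
      n * ∑ u ∈ A, jacobiSym (u : ℤ) n := by
    rw [s1, mul_sum, mul_sum, ← sum_sub_distrib]
    exact sum_congr rfl fun u _ => by ring
  have s4 : S = e * (4 * (∑ u ∈ A, (u : ℤ) * jacobiSym (u : ℤ) n) -
      n * ∑ u ∈ A, jacobiSym (u : ℤ) n) := by
    rw [s2]
    congr 1
    rw [mul_sum, mul_sum, ← sum_sub_distrib]
    exact sum_congr rfl fun u _ => by ring
  have s5 : e * S = 4 * (∑ u ∈ A, (u : ℤ) * jacobiSym (u : ℤ) n) -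
      n * ∑ u ∈ A, jacobiSym (u : ℤ) n := by
    conv_lhs => rw [s4]
    rw [← mul_assoc, hee, one_mul]
  linarith

end Pool.Agent.N609.CNF
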