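import Pool.Agent.N855.CNF.Theta
import Pool.Agent.N969.P15.Defs

/-!
# The theta series of the orthogonal complement of a vector, any diagonally dominant ternary form
-/

set_option autoImplicit false

namespace Pool.Agent.N609.CNF

open Finset Filter Topology Module
open Pool.Agent.N969.P15 (V3)
open Pool.Agent.N855.CNF (qf asym summ)

/-- the coefficients of a ternary form: diagonal `a, b, c`, off the diagonal `-d, -e, -f` -/
structure Gc where
  a : ℤ
  b : ℤ
  c : ℤ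
  d : ℤ
  e : ℤ
  f : ℤ

/-- diagonally dominant -/
def Gc.Dom (g : Gc) : Prop := 1 ≤ g.a - |g.d| - |g.e| ∧ 1 ≤ g.b - |g.d| - |g.f| ∧
  1 ≤ g.c - |g.e| - |g.f|

lemma two_mul_le (d x y : ℤ) : 2 * d * x * y ≤ |d| * (x ^ 2 + y ^ 2) := by
  have h1 : 2 * d * x * y ≤ |d| * |2 * (x * y)| := by
    rw [← abs_mul]
    exact le_trans (le_of_eq (by ring)) (le_abs_self _)
  refine h1.trans (mul_le_mul_of_nonneg_left ?_ (abs_nonneg d))
  rw [abs_le]
  constructor <;> nlinarith [sq_nonneg (x + y), sq_nonneg (x - y)]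

/-- the inner product -/
def ip (g : Gc) (v w : V3) : ℤ :=
  g.a * (v 0 * w 0) + g.b * (v 1 * w 1) + g.c * (v 2 * w 2) - g.d * (v 0 * w 1 + v 1 * w 0) -
    g.e * (v 0 * w 2 + v 2 * w 0) - g.f * (v 1 * w 2 + v 2 * w 1)

/-- the vectors of norm `n` -/
noncomputable def vec (g : Gc) (n : ℤ) : Finset V3 :=
  (Fintype.piFinset fun _ => Icc (-n) n).filter fun v => ip g v v = n

/-- the number of pairs with given inner product -/
noncomputable def cp (g : Gc) (n1 b n2 : ℤ) : ℕ :=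
  ((vec g n1 ×ˢ vec g n2).filter fun q => ip g q.1 q.2 = b).card

variable {g : Gc} (hg : g.Dom)
include hg

lemma ip_sos (w : V3) : w 0 ^ 2 + w 1 ^ 2 + w 2 ^ 2 ≤ ip g w w := by
  obtain ⟨h4, h5, h6⟩ := hg
  have e : ip g w w = g.a * w 0 ^ 2 + g.b * w 1 ^ 2 + g.c * w 2 ^ 2 - 2 * g.d * w 0 * w 1 -
      2 * g.e * w 0 * w 2 - 2 * g.f * w 1 * w 2 := by
    simp only [ip]; ring
  have a1 := two_mul_le g.d (w 0) (w 1)
  have a2 := two_mul_le g.e (w 0) (w 2)
  have a3 := two_mul_le g.f (w 1) (w 2)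
  have a4 := mul_le_mul_of_nonneg_right h4 (sq_nonneg (w 0))
  have a5 := mul_le_mul_of_nonneg_right h5 (sq_nonneg (w 1))
  have a6 := mul_le_mul_of_nonneg_right h6 (sq_nonneg (w 2))
  rw [e]
  nlinarith

lemma ip_nonneg (w : V3) : 0 ≤ ip g w w := by
  have := ip_sos hg w
  have a0 := sq_nonneg (w 0)
  have a1 := sq_nonneg (w 1)
  have a2 := sq_nonneg (w 2)
  linarith

lemma ip_pos {w : V3} (hw : w ≠ 0) : 0 < ip g w w := by
  have h := ip_sos hg w
  have a0 := sq_nonneg (w 0)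
  have a1 := sq_nonneg (w 1)
  have a2 := sq_nonneg (w 2)
  by_contra hcon
  push Not at hcon
  have h0 : w 0 ^ 2 = 0 := by linarith
  have h1 : w 1 ^ 2 = 0 := by linarith
  have h2 : w 2 ^ 2 = 0 := by linarith
  apply hw
  funext i
  fin_cases i
  · exact pow_eq_zero_iff two_ne_zero |>.1 h0
  · exact pow_eq_zero_iff two_ne_zero |>.1 h1
  · exact pow_eq_zero_iff two_ne_zero |>.1 h2

lemma mem_vec (k : ℕ) (w : V3) : w ∈ vec g k ↔ ip g w w = k := by
  rw [vec, mem_filter, Fintype.mem_piFinset]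
  refine ⟨fun h => h.2, fun h => ⟨fun i => ?_, h⟩⟩
  have e := ip_sos hg w
  rw [h] at e
  have a0 := sq_nonneg (w 0)
  have a1 := sq_nonneg (w 1)
  have a2 := sq_nonneg (w 2)
  have key : ∀ x : ℤ, x ^ 2 ≤ k → -(k : ℤ) ≤ x ∧ x ≤ k := by
    intro x hx
    constructor <;> nlinarith [sq_nonneg x, sq_nonneg (x + 1), sq_nonneg (x - 1)]
  rw [mem_Icc]
  fin_cases i
  · exact key _ (by show w 0 ^ 2 ≤ k; linarith)
  · exact key _ (by show w 1 ^ 2 ≤ k; linarith)
  · exact key _ (by show w 2 ^ 2 ≤ k; linarith)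

omit hg in
/-- the linear form -/
def ipL (g : Gc) (v : V3) : V3 →ₗ[ℤ] ℤ where
  toFun w := ip g v w
  map_add' a b := by simp only [ip, Pi.add_apply]; ring
  map_smul' c a := by
    simp only [ip, Pi.smul_apply, smul_eq_mul, RingHom.id_apply]; ring

omit hg in
lemma finrank_ker {v : V3} (hv : 0 < ip g v v) : finrank ℤ (LinearMap.ker (ipL g v)) = 2 := by
  have h0 := Submodule.finrank_quotient_add_finrank (LinearMap.ker (ipL g v))
  rw [(ipL g v).quotKerEquivRange.finrank_eq] at h0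
  have h2 : finrank ℤ V3 = 3 := by simp
  have h3 : finrank ℤ (LinearMap.range (ipL g v)) = 1 := by
    apply le_antisymm
    · have := Submodule.finrank_le (LinearMap.range (ipL g v))
      rwa [finrank_self] at this
    · rw [Submodule.one_le_finrank_iff]
      intro h
      have h4 : ipL g v v ∈ LinearMap.range (ipL g v) := ⟨v, rfl⟩
      rw [h, Submodule.mem_bot] at h4
      have : ip g v v = 0 := h4
      omega
  omega

omit hg in
lemma ip_comb (x y : ℤ) (a b : V3) : ip g (x • a + y • b) (x • a + y • b) =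
    x ^ 2 * ip g a a + 2 * (x * y * ip g a b) + y ^ 2 * ip g b b := by
  simp only [ip, Pi.add_apply, Pi.smul_apply, smul_eq_mul]; ring

/-- the binary form of the orthogonal complement -/
theorem perp {v : V3} (hv : 0 < ip g v v) : ∃ A B C : ℝ, 0 < A ∧ 0 < 4 * A * C - B ^ 2 ∧
    ∃ e : ℤ × ℤ ≃ {w : V3 // ip g v w = 0}, ∀ x, ((ip g (e x).1 (e x).1 : ℤ) : ℝ) = qf A B C x := by
  set W := LinearMap.ker (ipL g v) with hW
  have b : Basis (Fin 2) ℤ W := Module.finBasisOfFinrankEq ℤ W (finrank_ker hv)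
  set b0 : V3 := (b 0 : V3) with hb0
  set b1 : V3 := (b 1 : V3) with hb1
  have hli := b.linearIndependent
  have h1 : b1 ≠ 0 := fun h => b.ne_zero 1 (Subtype.ext h)
  have hA : 0 < ip g b1 b1 := ip_pos hg h1
  have hu : (ip g b1 b1) • b0 + (-(ip g b0 b1)) • b1 ≠ 0 := by
    intro h
    rw [Fintype.linearIndependent_iff] at hli
    have h2 := hli ![ip g b1 b1, -(ip g b0 b1)] (by
      rw [Fin.sum_univ_two]
      apply Subtype.ext
      simpa using h) 0
    simp at h2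
    omega
  have hD : 0 < ip g b1 b1 * (ip g b1 b1 * ip g b0 b0 - ip g b0 b1 ^ 2) := by
    have h3 := ip_pos hg hu
    rw [ip_comb] at h3
    nlinarith
  have hD' : 0 < ip g b1 b1 * ip g b0 b0 - ip g b0 b1 ^ 2 := by
    by_contra hcon
    push Not at hcon
    nlinarith
  let e1 : ℤ × ℤ ≃ W := (finTwoArrowEquiv ℤ).symm.trans b.equivFun.toEquiv.symm
  let e2 : W ≃ {w : V3 // ip g v w = 0} := Equiv.subtypeEquivRight fun w => LinearMap.mem_ker
  refine ⟨(ip g b1 b1 : ℤ), 2 * (ip g b0 b1 : ℤ), (ip g b0 b0 : ℤ), by exact_mod_cast hA, ?_,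
    e1.trans e2, ?_⟩
  · have h5 : (0 : ℝ) < ((ip g b1 b1 * ip g b0 b0 - ip g b0 b1 ^ 2 : ℤ) : ℝ) := by exact_mod_cast hD'
    push_cast at h5
    nlinarith
  · intro x
    have h6 : ((e1.trans e2) x).1 = x.1 • b0 + x.2 • b1 := by
      show ((b.equivFun.symm ![x.1, x.2] : W) : V3) = _
      rw [Basis.equivFun_symm_apply, Fin.sum_univ_two]
      simp [hb0, hb1]
    rw [h6, ip_comb]
    unfold qf
    push_cast
    ring

omit hg in
/-- the number of orthogonal vectors of norm `k` -/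
noncomputable def Nv (g : Gc) (v : V3) (k : ℕ) : ℕ := ((vec g k).filter fun w => ip g v w = 0).card

omit hg in
lemma cp_eq (n k : ℕ) : cp g n 0 k = ∑ v ∈ vec g n, Nv g v k := by
  unfold cp Nv
  rw [card_filter, sum_product]
  apply sum_congr rfl
  intro v _
  rw [card_filter]

/-- the theta series in terms of the counts -/
lemma theta_counts {v : V3} (hv : 0 < ip g v v) : ∃ κ K : ℝ, ∀ t : ℝ, 0 < t → t ≤ 1 →
    ∃ s : ℝ, HasSum (fun k : ℕ => (Nv g v k : ℝ) * Real.exp (-(t * k))) s ∧ |s - κ / t| ≤ K * t := by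
  obtain ⟨A, B, C, hA, hD, e, he⟩ := perp hg hv
  obtain ⟨κ, K, hK⟩ := asym A B C hA hD
  refine ⟨κ, K, fun t ht ht1 => ?_⟩
  have h1 := (summ A B C hA hD ht).hasSum
  set s := ∑' w : ℤ × ℤ, Real.exp (-(t * qf A B C w)) with hs
  refine ⟨s, ?_, hK t ht ht1 s h1⟩
  have h2 : HasSum (fun w : {w : V3 // ip g v w = 0} => Real.exp (-(t * (ip g w.1 w.1 : ℤ)))) s := by
    rw [← e.hasSum_iff]
    refine h1.congr_fun fun x => ?_
    simp only [Function.comp_apply]
    rw [he]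
  let q : {w : V3 // ip g v w = 0} → ℕ := fun w => (ip g w.1 w.1).toNat
  have hq : ∀ w, ((q w : ℕ) : ℤ) = ip g w.1 w.1 := fun w => Int.toNat_of_nonneg (ip_nonneg hg _)
  rw [← (Equiv.sigmaFiberEquiv q).hasSum_iff] at h2
  refine h2.sigma fun k => ?_
  have hE : {w : {w : V3 // ip g v w = 0} // q w = k} ≃
      {w : V3 // w ∈ (vec g k).filter fun w => ip g v w = 0} := by
    refine ⟨fun w => ⟨w.1.1, ?_⟩, fun w => ⟨⟨w.1, (mem_filter.1 w.2).2⟩, ?_⟩, ?_, ?_⟩
    · rw [mem_filter, mem_vec hg]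
      refine ⟨?_, w.1.2⟩
      rw [← hq, w.2]
    · have h3 := (mem_vec hg k w.1).1 (mem_filter.1 w.2).1
      show (ip g w.1 w.1).toNat = k
      rw [h3, Int.toNat_natCast]
    · intro w; rfl
    · intro w; rfl
  have : Fintype {w : {w : V3 // ip g v w = 0} // q w = k} := Fintype.ofEquiv _ hE.symm
  have h4 := hasSum_fintype (fun w : {w : {w : V3 // ip g v w = 0} // q w = k} =>
    Real.exp (-(t * (ip g w.1.1 w.1.1 : ℤ))))
  have h5 : ∑ w : {w : {w : V3 // ip g v w = 0} // q w = k},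
      Real.exp (-(t * (ip g w.1.1 w.1.1 : ℤ))) = (Nv g v k : ℝ) * Real.exp (-(t * k)) := by
    have h6 : ∀ w : {w : {w : V3 // ip g v w = 0} // q w = k},
        Real.exp (-(t * (ip g w.1.1 w.1.1 : ℤ))) = Real.exp (-(t * k)) := by
      intro w
      have h7 : ip g w.1.1 w.1.1 = (k : ℤ) := by rw [← hq, w.2]
      rw [h7, Int.cast_natCast]
    rw [sum_congr rfl fun w _ => h6 w, sum_const, card_univ, nsmul_eq_mul,
      Fintype.card_congr hE, Fintype.card_coe]
    rfl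
  rw [h5] at h4
  exact h4

/-- all vectors together -/
theorem total (n : ℕ) (hn : 0 < n) : ∃ κ K : ℝ, ∀ t : ℝ, 0 < t → t ≤ 1 →
    ∃ s : ℝ, HasSum (fun k : ℕ => (cp g n 0 k : ℝ) * Real.exp (-(t * k))) s ∧
      |s - κ / t| ≤ K * t := by
  have hv : ∀ v ∈ vec g n, 0 < ip g v v := fun v hv => by
    rw [(mem_vec hg n v).1 hv]; exact_mod_cast hn
  choose! κ K h using fun (v : V3) (hv : 0 < ip g v v) => theta_counts hg hv
  refine ⟨∑ v ∈ vec g n, κ v, ∑ v ∈ vec g n, K v, fun t ht ht1 => ?_⟩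
  choose! s hs1 hs2 using fun (v : V3) (hv : 0 < ip g v v) => h v hv t ht ht1
  refine ⟨∑ v ∈ vec g n, s v, ?_, ?_⟩
  · have h1 := hasSum_sum (s := vec g n) fun v hv' => hs1 v (hv v hv')
    refine h1.congr_fun fun k => ?_
    rw [cp_eq]
    push_cast
    rw [sum_mul]
  · rw [sum_div, ← sum_sub_distrib, sum_mul]
    exact (abs_sum_le_sum_abs _ _).trans (sum_le_sum fun v hv' => hs2 v (hv v hv'))

end Pool.Agent.N609.CNF
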