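import Pool.Agent.N609.CNF.Core
import Pool.Agent.N609.CNF.Half
import Pool.Agent.N609.CNF.Perp

/-!
# The class number formula for weighted numbers of vectors of ternary lattices

Generic form: any odd prime `q`, any weighted number of vectors with the standard orthogonal pair
counts.
-/

set_option autoImplicit false

namespace Pool.Agent.N609.CNF

open Finset
open Pool.Agent.N969.P15 (V3)

/-- the half sum of the character in terms of the number of vectors -/
theorem final {q n : ℕ} (K : ℕ) (hq : q.Prime) (hq2 : q ≠ 2) (hn : Squarefree n) (h4 : n % 4 = 3)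
    (h5 : jacobiSym (q : ℤ) n = -1) (c : ℕ → ℝ) (r : ℤ) (hr : c 0 = r)
    (hc : ∀ k : ℕ, k ≠ 0 → c k = K * ((locq q n (n * k) : ℤ) : ℝ))
    (htot : ∃ κ K' : ℝ, ∀ t : ℝ, 0 < t → t ≤ 1 →
      ∃ s : ℝ, HasSum (fun k : ℕ => c k * Real.exp (-(t * k))) s ∧ |s - κ / t| ≤ K' * t) :
    K * ∑ u ∈ (range n).filter (fun u => 2 * u < n), jacobiSym (u : ℤ) n =
      (2 - (if n % 8 = 7 then (1 : ℤ) else -1)) * r := by
  have h1 := r_mu K hq hq2 hn h4 h5 c hc htot
  rw [hr] at h1
  have h2 := moment K hn h4 r h1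
  have h3 := half h4
  have hn0 : (n : ℤ) ≠ 0 := by
    have : 0 < n := by omega
    exact_mod_cast this.ne'
  apply mul_left_cancel₀ hn0
  linear_combination (K : ℤ) * h3 - (2 - (if n % 8 = 7 then (1 : ℤ) else -1)) * h2

lemma cp_zero {g : Gc} (hg : g.Dom) (n : ℕ) : cp g n 0 0 = (vec g n).card := by
  have h := cp_eq (g := g) n 0
  rw [Nat.cast_zero] at h
  rw [h, card_eq_sum_ones]
  apply sum_congr rfl
  intro v _
  unfold Nv
  rw [card_eq_one]
  refine ⟨0, ?_⟩
  ext w
  have hm := mem_vec hg 0 w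
  rw [mem_filter, hm, Nat.cast_zero, mem_singleton]
  constructor
  · rintro ⟨h1, _⟩
    by_contra hw
    have := ip_pos hg hw
    rw [h1] at this
    simp at this
  · rintro rfl
    constructor <;> simp [ip]

end Pool.Agent.N609.CNF
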