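import Pool.Agent.N609.CNF.Perp

/-!
# The theta series of a sublattice of the orthogonal complement of a vector
-/

set_option autoImplicit false

namespace Pool.Agent.N609.CNF

open Finset Filter Topology Module
open Pool.Agent.N969.P15 (V3)
open Pool.Agent.N855.CNF (qf asym summ)
open scoped Classical

variable {g : Gc} (hg : g.Dom) {E : Submodule ℤ V3} (hE2 : ∀ w : V3, (2 : ℤ) • w ∈ E)

lemma finrank_inf (hE2 : ∀ w : V3, (2 : ℤ) • w ∈ E) {v : V3} (hv : 0 < ip g v v) :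
    finrank ℤ ((LinearMap.ker (ipL g v) ⊓ E : Submodule ℤ V3)) = 2 := by
  have h1 := finrank_ker hv
  apply le_antisymm
  · rw [← h1]
    exact Submodule.finrank_mono inf_le_left
  · rw [← h1]
    let φ : LinearMap.ker (ipL g v) →ₗ[ℤ] (LinearMap.ker (ipL g v) ⊓ E : Submodule ℤ V3) :=
      { toFun := fun w => ⟨(2 : ℤ) • w.1, ⟨Submodule.smul_mem _ _ w.2, hE2 w.1⟩⟩
        map_add' := fun a b => by
          apply Subtype.ext
          simp [smul_add]
        map_smul' := fun c a => by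
          apply Subtype.ext
          simp only [Submodule.coe_smul, RingHom.id_apply]
          rw [smul_comm] }
    apply LinearMap.finrank_le_finrank_of_injective (f := φ)
    intro a b hab
    have h2 : (2 : ℤ) • a.1 = (2 : ℤ) • b.1 := congrArg Subtype.val hab
    apply Subtype.ext
    exact smul_right_injective _ (by norm_num : (2 : ℤ) ≠ 0) h2

include hg hE2

/-- the binary form of the orthogonal complement -/
theorem perpE {v : V3} (hv : 0 < ip g v v) : ∃ A B C : ℝ, 0 < A ∧ 0 < 4 * A * C - B ^ 2 ∧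
    ∃ e : ℤ × ℤ ≃ {w : V3 // ip g v w = 0 ∧ w ∈ E}, ∀ x, ((ip g (e x).1 (e x).1 : ℤ) : ℝ) = qf A B C x := by
  set W : Submodule ℤ V3 := LinearMap.ker (ipL g v) ⊓ E with hW
  have b : Basis (Fin 2) ℤ W := Module.finBasisOfFinrankEq ℤ W (finrank_inf hE2 hv)
  set b0 : V3 := (b 0 : V3) with hb0
  set b1 : V3 := (b 1 : V3) with hb1
  have hli := b.linearIndependent
  have h1 : b1 ≠ 0 := fun h => b.ne_zero 1 (Subtype.ext h)
  have hA : 0 < ip g b1 b1 := ip_pos hg h1
  have hu : (ip g b1 b1) • b0 + (-(ip g b0 b1)) • b1 ≠ 0 := by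
    intro h
    rw [Fintype.linearIndependent_iff] at hli
    have h2 := hli ![ip g b1 b1, -(ip g b0 b1)] (by
      rw [Fin.sum_univ_two]
      apply Subtype.ext
      simpa using h) 0
    simp at h2
    omega
  have hD : 0 < ip g b1 b1 * (ip g b1 b1 * ip g b0 b0 - ip g b0 b1 ^ 2) := by
    have h3 := ip_pos hg hu
    rw [ip_comb] at h3
    nlinarith
  have hD' : 0 < ip g b1 b1 * ip g b0 b0 - ip g b0 b1 ^ 2 := by
    by_contra hcon
    push Not at hcon
    nlinarith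
  let e1 : ℤ × ℤ ≃ W := (finTwoArrowEquiv ℤ).symm.trans b.equivFun.toEquiv.symm
  let e2 : W ≃ {w : V3 // ip g v w = 0 ∧ w ∈ E} := Equiv.subtypeEquivRight fun w => by
    rw [hW, Submodule.mem_inf, LinearMap.mem_ker]; rfl
  refine ⟨(ip g b1 b1 : ℤ), 2 * (ip g b0 b1 : ℤ), (ip g b0 b0 : ℤ), by exact_mod_cast hA, ?_,
    e1.trans e2, ?_⟩
  · have h5 : (0 : ℝ) < ((ip g b1 b1 * ip g b0 b0 - ip g b0 b1 ^ 2 : ℤ) : ℝ) := by exact_mod_cast hD'
    push_cast at h5
    nlinarith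
  · intro x
    have h6 : ((e1.trans e2) x).1 = x.1 • b0 + x.2 • b1 := by
      show ((b.equivFun.symm ![x.1, x.2] : W) : V3) = _
      rw [Basis.equivFun_symm_apply, Fin.sum_univ_two]
      simp [hb0, hb1]
    rw [h6, ip_comb]
    unfold qf
    push_cast
    ring

omit hg hE2 in
/-- the number of orthogonal vectors of norm `k` -/
noncomputable def NvE (g : Gc) (E : Submodule ℤ V3) (v : V3) (k : ℕ) : ℕ := ((vec g k).filter fun w => ip g v w = 0 ∧ w ∈ E).card

omit hg hE2 in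
/-- the number of orthogonal pairs with the second vector in `E` -/
noncomputable def cpE (g : Gc) (E : Submodule ℤ V3) (n k : ℕ) : ℕ :=
  ((vec g n ×ˢ vec g k).filter fun q => ip g q.1 q.2 = 0 ∧ q.2 ∈ E).card

omit hg hE2 in
lemma cpE_eq (n k : ℕ) : cpE g E n k = ∑ v ∈ vec g n, NvE g E v k := by
  unfold cpE NvE
  rw [card_filter, sum_product]
  apply sum_congr rfl
  intro v _
  rw [card_filter]

/-- the theta series in terms of the counts -/
lemma theta_countsE {v : V3} (hv : 0 < ip g v v) : ∃ κ K : ℝ, ∀ t : ℝ, 0 < t → t ≤ 1 →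
    ∃ s : ℝ, HasSum (fun k : ℕ => (NvE g E v k : ℝ) * Real.exp (-(t * k))) s ∧ |s - κ / t| ≤ K * t := by
  obtain ⟨A, B, C, hA, hD, e, he⟩ := perpE hg hE2 hv
  obtain ⟨κ, K, hK⟩ := asym A B C hA hD
  refine ⟨κ, K, fun t ht ht1 => ?_⟩
  have h1 := (summ A B C hA hD ht).hasSum
  set s := ∑' w : ℤ × ℤ, Real.exp (-(t * qf A B C w)) with hs
  refine ⟨s, ?_, hK t ht ht1 s h1⟩
  have h2 : HasSum (fun w : {w : V3 // ip g v w = 0 ∧ w ∈ E} => Real.exp (-(t * (ip g w.1 w.1 : ℤ)))) s := by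
    rw [← e.hasSum_iff]
    refine h1.congr_fun fun x => ?_
    simp only [Function.comp_apply]
    rw [he]
  let q : {w : V3 // ip g v w = 0 ∧ w ∈ E} → ℕ := fun w => (ip g w.1 w.1).toNat
  have hq : ∀ w, ((q w : ℕ) : ℤ) = ip g w.1 w.1 := fun w => Int.toNat_of_nonneg (ip_nonneg hg _)
  rw [← (Equiv.sigmaFiberEquiv q).hasSum_iff] at h2
  refine h2.sigma fun k => ?_
  have hE : {w : {w : V3 // ip g v w = 0 ∧ w ∈ E} // q w = k} ≃
      {w : V3 // w ∈ (vec g k).filter fun w => ip g v w = 0 ∧ w ∈ E} := by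
    refine ⟨fun w => ⟨w.1.1, ?_⟩, fun w => ⟨⟨w.1, (mem_filter.1 w.2).2⟩, ?_⟩, ?_, ?_⟩
    · rw [mem_filter, mem_vec hg]
      refine ⟨?_, w.1.2⟩
      rw [← hq, w.2]
    · have h3 := (mem_vec hg k w.1).1 (mem_filter.1 w.2).1
      show (ip g w.1 w.1).toNat = k
      rw [h3, Int.toNat_natCast]
    · intro w; rfl
    · intro w; rfl
  have : Fintype {w : {w : V3 // ip g v w = 0 ∧ w ∈ E} // q w = k} := Fintype.ofEquiv _ hE.symm
  have h4 := hasSum_fintype (fun w : {w : {w : V3 // ip g v w = 0 ∧ w ∈ E} // q w = k} =>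
    Real.exp (-(t * (ip g w.1.1 w.1.1 : ℤ))))
  have h5 : ∑ w : {w : {w : V3 // ip g v w = 0 ∧ w ∈ E} // q w = k},
      Real.exp (-(t * (ip g w.1.1 w.1.1 : ℤ))) = (NvE g E v k : ℝ) * Real.exp (-(t * k)) := by
    have h6 : ∀ w : {w : {w : V3 // ip g v w = 0 ∧ w ∈ E} // q w = k},
        Real.exp (-(t * (ip g w.1.1 w.1.1 : ℤ))) = Real.exp (-(t * k)) := by
      intro w
      have h7 : ip g w.1.1 w.1.1 = (k : ℤ) := by rw [← hq, w.2]
      rw [h7, Int.cast_natCast]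
    rw [sum_congr rfl fun w _ => h6 w, sum_const, card_univ, nsmul_eq_mul,
      Fintype.card_congr hE, Fintype.card_coe]
    rfl
  rw [h5] at h4
  exact h4

/-- all vectors together -/
theorem totalE (n : ℕ) (hn : 0 < n) : ∃ κ K : ℝ, ∀ t : ℝ, 0 < t → t ≤ 1 →
    ∃ s : ℝ, HasSum (fun k : ℕ => (cpE g E n k : ℝ) * Real.exp (-(t * k))) s ∧
      |s - κ / t| ≤ K * t := by
  have hv : ∀ v ∈ vec g n, 0 < ip g v v := fun v hv => by
    rw [(mem_vec hg n v).1 hv]; exact_mod_cast hn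
  choose! κ K h using fun (v : V3) (hv : 0 < ip g v v) => theta_countsE hg hE2 hv
  refine ⟨∑ v ∈ vec g n, κ v, ∑ v ∈ vec g n, K v, fun t ht ht1 => ?_⟩
  choose! s hs1 hs2 using fun (v : V3) (hv : 0 < ip g v v) => h v hv t ht ht1
  refine ⟨∑ v ∈ vec g n, s v, ?_, ?_⟩
  · have h1 := hasSum_sum (s := vec g n) fun v hv' => hs1 v (hv v hv')
    refine h1.congr_fun fun k => ?_
    rw [cpE_eq]
    push_cast
    rw [sum_mul]
  · rw [sum_div, ← sum_sub_distrib, sum_mul]
    exact (abs_sum_le_sum_abs _ _).trans (sum_le_sum fun v hv' => hs2 v (hv v hv'))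

end Pool.Agent.N609.CNF
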