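import Pool.Agent.N609.CNF.EvLoc
import Pool.Agent.N609.CNF.Abs
import Pool.Agent.N609.CNF.PerpE
import Pool.Agent.N609.CNF.Fin

/-!
# The class number formula: ramified and even cases, generic form
-/

set_option autoImplicit false

namespace Pool.Agent.N609.CNF

open Finset ArithmeticFunction
open Pool.Agent.N969.P15 (V3 c2 Ev chE)
open Pool.Agent.N855.CNF (cA cA_bd cA_eq ch ch_per ch_empty OP md md_pos md_odd md_sdiff md_P OP_P
  ch_primeFactors rc rc_ps even_mu mu ps mu_eq one_char lam_exists)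

/-! ### odd discriminants divisible by `q` -/

lemma er_P {q n : ℕ} (hq : q.Prime) (hn : Squarefree n) (h4 : n % 4 = 3) (h5 : q ∣ n) :
    ∏ l ∈ n.primeFactors, er q l = 1 := by
  have hn0 : n ≠ 0 := hn.ne_zero
  have hqP : q ∈ n.primeFactors := Nat.mem_primeFactors.2 ⟨hq, h5, hn0⟩
  have h3 : ∏ l ∈ n.primeFactors, jacobiSym (-1) l = -1 := by
    have hkey : ∀ S : Finset ℕ, OP S → ∏ l ∈ S, jacobiSym (-1) l = jacobiSym (-1) (md S) := by
      intro S
      induction S using Finset.induction_on with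
      | empty => intro _; simp [md, jacobiSym.one_right]
      | insert p S hp ih =>
        intro hS
        have h1 : OP S := fun q hq => hS q (mem_insert_of_mem hq)
        have h2 : p ≠ 0 := (hS p (mem_insert_self p S)).1.ne_zero
        have e : md (insert p S) = p * md S := by unfold md; rw [prod_insert hp]
        rw [e, jacobiSym.mul_right' _ h2 (md_pos h1).ne', ← ih h1, prod_insert hp]
    rw [hkey _ (OP_P h4), md_P hn, jacobiSym.at_neg_one (Nat.odd_iff.2 (by omega)),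
      ZMod.χ₄_nat_three_mod_four h4]
  have h1 : ∏ l ∈ n.primeFactors, (if l = q then (-1 : ℤ) else 1) = -1 := by
    rw [prod_ite_eq_of_mem' _ _ _ hqP]
  unfold er
  rw [prod_mul_distrib, h3, h1]
  norm_num

theorem r_muR {q n : ℕ} (K : ℝ) (hq : q.Prime) (hn : Squarefree n) (h4 : n % 4 = 3)
    (h5 : q ∣ n) (c : ℕ → ℝ)
    (hc : ∀ k : ℕ, k ≠ 0 → c k = K * ((locr q n (n * k) : ℤ) : ℝ))
    (htot : ∃ κ K' : ℝ, ∀ t : ℝ, 0 < t → t ≤ 1 →
      ∃ s : ℝ, HasSum (fun k : ℕ => c k * Real.exp (-(t * k))) s ∧ |s - κ / t| ≤ K' * t) :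
    2 * c 0 = K * mu (rc n.primeFactors) n := by
  set P := n.primeFactors with hP
  have hP0 : P.Nonempty := by
    rw [hP, Nat.nonempty_primeFactors]; omega
  have key := absCore P.powerset (fun S m => (((cA S * cA (P \ S)) m : ℤ) : ℝ))
    (fun S => K / 2 * ((∏ l ∈ S, er q l : ℤ) : ℝ))
    (fun S => if S = ∅ ∨ S = P then mu (rc P) n / 2 else 0) (fun S => by simp)
    (fun S t ht => lam_exists S (P \ S) ht)
    (fun S hS => one_char hn h4 (mem_powerset.1 hS)) (w := 4) (by norm_num) c ?_ ?_ htot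
  · rw [key]
    have hne : (∅ : Finset ℕ) ≠ P := hP0.ne_empty.symm
    have h1 : ∀ S ∈ P.powerset, K / 2 * ((∏ l ∈ S, er q l : ℤ) : ℝ) *
        (if S = ∅ ∨ S = P then mu (rc P) n / 2 else 0) =
        (if S = ∅ then K / 2 * (mu (rc P) n / 2) else 0) +
          (if S = P then K / 2 * (mu (rc P) n / 2) else 0) := by
      intro S _
      by_cases a1 : S = ∅
      · subst a1
        rw [if_pos (Or.inl rfl), if_pos rfl, if_neg hne]
        simp
      · by_cases a2 : S = P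
        · rw [if_pos (Or.inr a2), if_neg a1, if_pos a2, a2, er_P hq hn h4 h5]
          simp
        · rw [if_neg (by tauto), if_neg a1, if_neg a2]
          simp
    rw [sum_congr rfl h1, sum_add_distrib, sum_ite_eq', sum_ite_eq',
      if_pos (empty_mem_powerset P), if_pos (mem_powerset_self P)]
    ring
  · intro m hm
    rw [hc (4 * m) (by positivity)]
    have h1 := loc_eqR hq hn h4 h5 hm
    have h2 : ((locr q n (n * (4 * m)) : ℤ) : ℝ) = (((2 * locr q n (n * (4 * m)) : ℤ)) : ℝ) / 2 := by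
      push_cast; ring
    rw [h2, h1]
    push_cast
    rw [sum_div, mul_sum]
    apply sum_congr rfl
    intro S _
    ring
  · intro k hk
    have hk0 : k ≠ 0 := fun h => hk (h ▸ dvd_zero 4)
    rw [hc k hk0, loc_zeroR hn h4 hk0 hk]
    simp

/-- the half sum of the character, `q ∣ n`, odd -/
theorem finalR {q n : ℕ} (K : ℕ) (hq : q.Prime) (hn : Squarefree n) (h4 : n % 4 = 3)
    (h5 : q ∣ n) (c : ℕ → ℝ) (r : ℤ) (hr : c 0 = r)
    (hc : ∀ k : ℕ, k ≠ 0 → c k = K * ((locr q n (n * k) : ℤ) : ℝ))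
    (htot : ∃ κ K' : ℝ, ∀ t : ℝ, 0 < t → t ≤ 1 →
      ∃ s : ℝ, HasSum (fun k : ℕ => c k * Real.exp (-(t * k))) s ∧ |s - κ / t| ≤ K' * t) :
    K * ∑ u ∈ (range n).filter (fun u => 2 * u < n), jacobiSym (u : ℤ) n =
      2 * ((2 - (if n % 8 = 7 then (1 : ℤ) else -1)) * r) := by
  have h1 := r_muR (K : ℝ) hq hn h4 h5 c hc htot
  rw [hr] at h1
  have h2 := moment K hn h4 (2 * r) (by push_cast; exact h1)
  have h3 := half h4
  have hn0 : (n : ℤ) ≠ 0 := by
    have : 0 < n := by omega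
    exact_mod_cast this.ne'
  apply mul_left_cancel₀ hn0
  linear_combination (K : ℤ) * h3 - (2 - (if n % 8 = 7 then (1 : ℤ) else -1)) * h2

/-! ### even discriminants -/

lemma cA_Per {S : Finset ℕ} (hS : OP S) (h0 : S.Nonempty) : Per (cA S) (md S) where
  pos := md_pos hS
  bd := cA_bd S
  per := fun d => by
    unfold rf
    rw [cA_eq hS h0, cA_eq hS h0, ch_per hS]
  mean := by
    have h1 : rf (cA S) = rc S := by
      funext d
      unfold rf rc
      rw [cA_eq hS h0]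
    rw [h1]
    exact rc_ps hS h0

lemma c2_reflE (n : ℕ) {M d : ℕ} (hM : 2 * hc n ∣ M) (hd : d ≤ M) :
    c2 n ((M - d : ℕ) : ℤ) = (if n % 16 = 4 ∨ n % 32 = 8 then -1 else 1) * c2 n d := by
  by_cases h16 : n % 16 = 4
  · have h1 : hc n = 2 := by unfold hc; rw [if_pos h16]
    rw [h1] at hM
    obtain ⟨k, hk⟩ := hM
    subst hk
    rw [if_pos (Or.inl h16), Nat.cast_sub hd]
    unfold c2
    push_cast
    split_ifs <;> omega
  · have h1 : hc n = 4 := by unfold hc; rw [if_neg h16]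
    rw [h1] at hM
    exact c2_refl n hM hd

/-- the limit of one genus character -/
lemma one_charE {n : ℕ} (hn : Ev n) {S : Finset ℕ} (hS : S ⊆ po n) :
    ∃ C : ℝ, ∀ t : ℝ, 0 < t → t ≤ 1 / 2 → ∀ s1 s2 : ℝ,
      HasSum (fun m : ℕ => (((cA S * dA n (po n \ S)) m : ℤ) : ℝ) * Real.exp (-t) ^ m) s1 →
      HasSum (fun m : ℕ => (((cA S * dA n (po n \ S)) m : ℤ) : ℝ) *
        Real.exp (-(2 * t)) ^ m) s2 →
        |s1 - 2 * s2 - (if S = ∅ then mu (rf (dA n (po n))) n / 2 else 0)| ≤ C * t := by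
  have hOP := po_OP n
  by_cases h1 : S = ∅
  · rw [if_pos h1]
    obtain ⟨C, hC⟩ := lamG_triv (dA_Per n hOP)
    rw [hc_md hn] at hC
    refine ⟨C, fun t ht ht1 s1 s2 hs1 hs2 => ?_⟩
    have e : cA S * dA n (po n \ S) = dA n (po n) * cA ∅ := by
      rw [h1, sdiff_empty, mul_comm]
    rw [e] at hs1 hs2
    exact hC t ht (by linarith) s1 s2 hs1 hs2
  · rw [if_neg h1]
    have hS0 : S.Nonempty := nonempty_iff_ne_empty.2 h1
    have hOS : OP S := fun p hp => hOP p (hS hp)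
    have hOT : OP (po n \ S) := fun p hp => hOP p (Finset.mem_sdiff.1 hp).1
    have hmul := md_sdiff hS
    have key : ∃ C : ℝ, ∀ t : ℝ, 0 < t → t ≤ 1 → ∀ s : ℝ,
        HasSum (fun m : ℕ => (((cA S * dA n (po n \ S)) m : ℤ) : ℝ) *
          Real.exp (-t) ^ m) s → |s| ≤ C * t := by
      have hSodd := Nat.odd_iff.1 (md_odd hOS)
      by_cases h : md S % 4 = 1
      · have hmu : mu (rf (cA S)) (md S) = 0 := by
          have e1 : rf (cA S) = rc S := by
            funext d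
            unfold rf rc
            rw [cA_eq hOS hS0]
          rw [e1]
          exact even_mu hOS hS0 h
        have := lamG_even (dA_Per n hOT) (cA_Per hOS hS0) hmu
        rwa [mul_comm (dA n (po n \ S)) (cA S)] at this
      · have h3 : md S % 4 = 3 := by omega
        have hTodd := Nat.odd_iff.1 (md_odd hOT)
        have hprod : md S % 4 * (md (po n \ S) % 4) % 4 = md (po n) % 4 := by
          rw [← hmul]; exact (Nat.mul_mod _ _ 4).symm
        rw [h3] at hprod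
        have hmu : mu (rf (dA n (po n \ S))) (2 * (hc n * md (po n \ S))) = 0 := by
          apply refl_mu (dA_Per n hOT)
          intro j hj
          rw [dA_apply, dA_apply, c2_reflE n ⟨md (po n \ S), by ring⟩ hj,
            ch_refl hOT ⟨2 * hc n, by ring⟩ hj]
          have hT4 : md (po n \ S) % 4 = 1 ∨ md (po n \ S) % 4 = 3 := by omega
          have hs : (if n % 16 = 4 ∨ n % 32 = 8 then (-1 : ℤ) else 1) *
              (if md (po n \ S) % 4 = 1 then 1 else -1) = 1 := by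
            rcases hT4 with h5 | h5 <;> rw [h5] at hprod
            · rcases ev_cases hn with ⟨_, _, h6⟩ | ⟨_, _, h6⟩ | ⟨h7, _, _⟩
              · omega
              · omega
              · split_ifs <;> omega
            · rcases ev_cases hn with ⟨h7, _, h6⟩ | ⟨h7, _, h6⟩ | ⟨_, _, h6⟩
              · split_ifs <;> omega
              · split_ifs <;> omega
              · omega
          linear_combination (c2 n j * ch (po n \ S) j) * hs
        exact lamG_even (cA_Per hOS hS0) (dA_Per n hOT) hmu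
    obtain ⟨C, hC⟩ := key
    refine ⟨5 * C, fun t ht ht1 s1 s2 hs1 hs2 => ?_⟩
    have a1 := hC t ht (by linarith) s1 hs1
    have a2 := hC (2 * t) (by linarith) (by linarith) s2 hs2
    rw [sub_zero]
    have a3 := abs_sub s1 (2 * s2)
    rw [abs_mul, abs_two] at a3
    linarith

/-- the mean value of the character of even conductor -/
lemma mu_half {n : ℕ} (hn : Ev n) : mu (rf (dA n (po n))) n =
    ((∑ u ∈ (range n).filter (fun u => 2 * u < n), chE n u : ℤ) : ℝ) / 2 := by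
  have hOP := po_OP n
  set h := hc n * md (po n) with hh
  have h2 : 2 * h = n := hc_md hn
  have h0 : 0 < h := Nat.mul_pos (hc_pos n) (md_pos hOP)
  have hP := dA_Per n hOP
  rw [← hh, h2] at hP
  rw [mu_eq hP.mean]
  have e1 : (range n).filter (fun u => 2 * u < n) = range h := by
    ext u
    rw [mem_filter, mem_range, mem_range]
    omega
  rw [e1]
  have e2 : ∑ j ∈ range n, (j : ℝ) * rf (dA n (po n)) j =
      -((h : ℝ) * ∑ j ∈ range h, rf (dA n (po n)) j) := by
    have e0 : range n = range (2 * h) := by rw [h2]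
    rw [e0, two_mul, sum_range_add, ← sum_add_distrib, mul_sum, ← sum_neg_distrib]
    apply sum_congr rfl
    intro j _
    have e3 : rf (dA n (po n)) (h + j) = - rf (dA n (po n)) j := by
      unfold rf
      rw [add_comm h j, hh, dA_anti n hOP]
      push_cast
      rfl
    rw [e3]
    push_cast
    ring
  rw [e2]
  have e4 : ∑ j ∈ range h, rf (dA n (po n)) j = ((∑ u ∈ range h, chE n u : ℤ) : ℝ) := by
    push_cast
    rfl
  rw [e4]
  have hnr : (n : ℝ) = 2 * h := by rw [← h2]; push_cast; ring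
  have hhr : (h : ℝ) ≠ 0 := by positivity
  rw [hnr]
  field_simp

theorem r_muE {q n : ℕ} (K : ℝ) (hq : q.Prime) (hq2 : q ≠ 2) (hn : Ev n)
    (h5 : jacobiSym (-(n : ℤ)) q = -1) (hqn : ¬ q ∣ n) (c : ℕ → ℝ)
    (hc : ∀ k : ℕ, k ≠ 0 → 4 ∣ k → c k = K * ((locqE q n 0 (n * k) : ℤ) : ℝ))
    (hc4 : ∀ k : ℕ, ¬ 4 ∣ k → c k = 0)
    (htot : ∃ κ K' : ℝ, ∀ t : ℝ, 0 < t → t ≤ 1 →
      ∃ s : ℝ, HasSum (fun k : ℕ => c k * Real.exp (-(t * k))) s ∧ |s - κ / t| ≤ K' * t) :
    c 0 = K * mu (rf (dA n (po n))) n := by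
  have hq0 := hq.pos
  have key := absCore (po n).powerset (fun S m => (((cA S * dA n (po n \ S)) m : ℤ) : ℝ))
    (fun S => K * 2 * ((∏ l ∈ S, jacobiSym (-(q : ℤ)) l : ℤ) : ℝ))
    (fun S => if S = ∅ then mu (rf (dA n (po n))) n / 2 else 0) (fun S => by simp)
    (fun S t ht => lamG_exists (cA_bd S) (dA_bd n (po n \ S)) ht)
    (fun S hS => one_charE hn (mem_powerset.1 hS)) (w := 4 * q) (by positivity) c ?_ ?_ htot
  · rw [key]
    have h1 : ∀ S ∈ (po n).powerset, K * 2 * ((∏ l ∈ S, jacobiSym (-(q : ℤ)) l : ℤ) : ℝ) *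
        (if S = ∅ then mu (rf (dA n (po n))) n / 2 else 0) =
        (if S = ∅ then K * mu (rf (dA n (po n))) n else 0) := by
      intro S _
      split_ifs with a1
      · subst a1
        simp
        ring
      · simp
    rw [sum_congr rfl h1, sum_ite_eq', if_pos (empty_mem_powerset _)]
  · intro m hm
    rw [hc (4 * q * m) (by positivity) ⟨q * m, by ring⟩, loc_eqE hq hq2 hn h5 hm]
    push_cast
    rw [← mul_assoc, mul_sum]
    apply sum_congr rfl
    intro S _
    ring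
  · intro k hk
    by_cases h4 : 4 ∣ k
    · have hk0 : k ≠ 0 := fun h => hk (h ▸ dvd_zero _)
      rw [hc k hk0 h4, loc_zeroE hq hq2 (ev_ne hn) hqn hk0 h4 hk]
      simp
    · exact hc4 k h4

theorem r_muRE {q n : ℕ} (K : ℝ) (hq : q.Prime) (hq2 : q ≠ 2) (hn : Ev n)
    (h5 : q ∣ n) (c : ℕ → ℝ)
    (hc : ∀ k : ℕ, k ≠ 0 → 4 ∣ k → c k = K * ((locrE q n 0 (n * k) : ℤ) : ℝ))
    (hc4 : ∀ k : ℕ, ¬ 4 ∣ k → c k = 0)
    (htot : ∃ κ K' : ℝ, ∀ t : ℝ, 0 < t → t ≤ 1 →
      ∃ s : ℝ, HasSum (fun k : ℕ => c k * Real.exp (-(t * k))) s ∧ |s - κ / t| ≤ K' * t) :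
    c 0 = K * mu (rf (dA n (po n))) n / 2 := by
  have key := absCore (po n).powerset (fun S m => (((cA S * dA n (po n \ S)) m : ℤ) : ℝ))
    (fun S => K * ((∏ l ∈ S, er q l : ℤ) : ℝ))
    (fun S => if S = ∅ then mu (rf (dA n (po n))) n / 2 else 0) (fun S => by simp)
    (fun S t ht => lamG_exists (cA_bd S) (dA_bd n (po n \ S)) ht)
    (fun S hS => one_charE hn (mem_powerset.1 hS)) (w := 4) (by norm_num) c ?_ ?_ htot
  · rw [key]
    have h1 : ∀ S ∈ (po n).powerset, K * ((∏ l ∈ S, er q l : ℤ) : ℝ) *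
        (if S = ∅ then mu (rf (dA n (po n))) n / 2 else 0) =
        (if S = ∅ then K * mu (rf (dA n (po n))) n / 2 else 0) := by
      intro S _
      split_ifs with a1
      · subst a1
        simp
        ring
      · simp
    rw [sum_congr rfl h1, sum_ite_eq', if_pos (empty_mem_powerset _)]
  · intro m hm
    rw [hc (4 * m) (by positivity) ⟨m, rfl⟩, loc_eqRE hq hq2 hn h5 hm]
    push_cast
    rw [mul_sum]
    apply sum_congr rfl
    intro S _
    ring
  · intro k hk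
    exact hc4 k hk

/-- the half sum of the character, even discriminants -/
theorem finalE {q n : ℕ} (K : ℕ) (hq : q.Prime) (hq2 : q ≠ 2) (hn : Ev n)
    (h5 : jacobiSym (-(n : ℤ)) q = -1) (hqn : ¬ q ∣ n) (c : ℕ → ℝ) (r : ℤ) (hr : c 0 = r)
    (hc : ∀ k : ℕ, k ≠ 0 → 4 ∣ k → c k = K * ((locqE q n 0 (n * k) : ℤ) : ℝ))
    (hc4 : ∀ k : ℕ, ¬ 4 ∣ k → c k = 0)
    (htot : ∃ κ K' : ℝ, ∀ t : ℝ, 0 < t → t ≤ 1 →
      ∃ s : ℝ, HasSum (fun k : ℕ => c k * Real.exp (-(t * k))) s ∧ |s - κ / t| ≤ K' * t) :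
    K * ∑ u ∈ (range n).filter (fun u => 2 * u < n), chE n u = 2 * r := by
  have h1 := r_muE (K : ℝ) hq hq2 hn h5 hqn c hc hc4 htot
  rw [hr, mu_half hn] at h1
  have h2 : ((K * ∑ u ∈ (range n).filter (fun u => 2 * u < n), chE n u : ℤ) : ℝ) =
      ((2 * r : ℤ) : ℝ) := by
    rw [Int.cast_mul, Int.cast_mul, h1]
    push_cast
    ring
  exact_mod_cast h2

/-- the half sum of the character, even discriminants, `q ∣ n` -/
theorem finalRE {q n : ℕ} (K : ℕ) (hq : q.Prime) (hq2 : q ≠ 2) (hn : Ev n)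
    (h5 : q ∣ n) (c : ℕ → ℝ) (r : ℤ) (hr : c 0 = r)
    (hc : ∀ k : ℕ, k ≠ 0 → 4 ∣ k → c k = K * ((locrE q n 0 (n * k) : ℤ) : ℝ))
    (hc4 : ∀ k : ℕ, ¬ 4 ∣ k → c k = 0)
    (htot : ∃ κ K' : ℝ, ∀ t : ℝ, 0 < t → t ≤ 1 →
      ∃ s : ℝ, HasSum (fun k : ℕ => c k * Real.exp (-(t * k))) s ∧ |s - κ / t| ≤ K' * t) :
    K * ∑ u ∈ (range n).filter (fun u => 2 * u < n), chE n u = 4 * r := by
  have h1 := r_muRE (K : ℝ) hq hq2 hn h5 c hc hc4 htot
  rw [hr, mu_half hn] at h1
  have h2 : ((K * ∑ u ∈ (range n).filter (fun u => 2 * u < n), chE n u : ℤ) : ℝ) =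
      ((4 * r : ℤ) : ℝ) := by
    rw [Int.cast_mul, Int.cast_mul, h1]
    push_cast
    ring
  exact_mod_cast h2

end Pool.Agent.N609.CNF
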