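import Pool.Agent.N855.CNF.Lambert

/-!
# Lambert series near `q = 1`, periodic functions of mean zero
-/

set_option autoImplicit false

namespace Pool.Agent.N609.CNF

open Finset Filter Topology ArithmeticFunction
open Pool.Agent.N855.CNF (ps mu ps2 ps_succ mu_eq abel_rat gen_fun lam_summable lam_conv lam_fib cA
  cA_apply ch_empty cA_bd)

/-- the real valued function -/
def rf (f : ArithmeticFunction ℤ) (d : ℕ) : ℝ := (f d : ℝ)

/-- bounded by one, periodic, mean zero -/
structure Per (f : ArithmeticFunction ℤ) (M : ℕ) : Prop where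
  pos : 0 < M
  bd : ∀ n, |f n| ≤ 1
  per : ∀ d, rf f (d + M) = rf f d
  mean : ps (rf f) M = 0

lemma lamG_all {f g : ArithmeticFunction ℤ} (hf : ∀ n, |f n| ≤ 1) (hg : ∀ n, |g n| ≤ 1)
    {t s : ℝ} (ht : 0 < t)
    (hs : HasSum (fun n : ℕ => (((f * g) n : ℤ) : ℝ) * Real.exp (-t) ^ n) s) :
    HasSum (fun c : ℕ+ × ℕ+ => (f c.1 : ℝ) * (g c.2 : ℝ) *
      Real.exp (-t) ^ (c.1 * c.2 : ℕ)) s := by
  have h1 : Real.exp (-t) < 1 := by
    have := Real.exp_lt_exp.2 (show -t < 0 by linarith)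
    rwa [Real.exp_zero] at this
  have h2 := (lam_summable f g hf hg (Real.exp_pos _).le h1).hasSum
  have h3 := lam_conv _ _ h2
  rw [hs.unique h3]
  exact h2

/-- the series -/
lemma lamG_exists {f g : ArithmeticFunction ℤ} (hf : ∀ n, |f n| ≤ 1) (hg : ∀ n, |g n| ≤ 1)
    {t : ℝ} (ht : 0 < t) :
    ∃ s : ℝ, HasSum (fun n : ℕ => (((f * g) n : ℤ) : ℝ) * Real.exp (-t) ^ n) s := by
  have h1 : Real.exp (-t) < 1 := by
    have := Real.exp_lt_exp.2 (show -t < 0 by linarith)
    rwa [Real.exp_zero] at this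
  exact ⟨_, lam_conv _ _ (lam_summable f g hf hg (Real.exp_pos _).le h1).hasSum⟩

/-- an even function on one side: the limit is zero -/
theorem lamG_even {f g : ArithmeticFunction ℤ} {M N : ℕ} (hf : Per f M) (hg : Per g N)
    (h1 : mu (rf g) N = 0) : ∃ C : ℝ, ∀ t : ℝ, 0 < t → t ≤ 1 → ∀ s : ℝ,
      HasSum (fun n : ℕ => (((f * g) n : ℤ) : ℝ) * Real.exp (-t) ^ n) s → |s| ≤ C * t := by
  obtain ⟨P, Q, hQ, hP0, hPQ, hgen⟩ := gen_fun hg.pos hg.per hg.mean
    (by unfold rf; simp)
  rw [h1] at hPQ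
  obtain ⟨C, hC⟩ := abel_rat hf.pos hf.per hf.mean P Q hQ hP0
  refine ⟨C, fun t ht ht1 s hs => ?_⟩
  have hq : Real.exp (-t) < 1 := by
    have := Real.exp_lt_exp.2 (show -t < 0 by linarith)
    rwa [Real.exp_zero] at this
  have h2 := lamG_all hf.bd hg.bd ht hs
  have h3 := lam_fib f g (G := fun r => P.eval r / Q.eval r) (fun r a b => hgen r a b)
    (Real.exp_pos _).le hq h2
  have h4 := hC t ht ht1 s (by
    refine h3.congr_fun fun d => ?_
    rw [← Real.exp_nat_mul]
    have : (d : ℝ) * -t = -(d * t) := by ring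
    rw [this]
    rfl)
  rw [hPQ, mul_zero, sub_zero] at h4
  exact h4

/-- one trivial character -/
theorem lamG_triv {f : ArithmeticFunction ℤ} {M : ℕ} (hf : Per f M) :
    ∃ C : ℝ, ∀ t : ℝ, 0 < t → t ≤ 1 → ∀ s1 s2 : ℝ,
      HasSum (fun n : ℕ => (((f * cA ∅) n : ℤ) : ℝ) * Real.exp (-t) ^ n) s1 →
      HasSum (fun n : ℕ => (((f * cA ∅) n : ℤ) : ℝ) * Real.exp (-(2 * t)) ^ n) s2 →
        |s1 - 2 * s2 - mu (rf f) M / 2| ≤ C * t := by
  obtain ⟨C, hC⟩ := abel_rat hf.pos hf.per hf.mean Polynomial.X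
    (1 + Polynomial.X) (fun q a _ => by simp; exact a) (by simp)
  refine ⟨C, fun t ht ht1 s1 s2 hs1 hs2 => ?_⟩
  have hq : ∀ x : ℝ, 0 < x → Real.exp (-x) < 1 := fun x hx => by
    have := Real.exp_lt_exp.2 (show -x < 0 by linarith)
    rwa [Real.exp_zero] at this
  have hG : ∀ r : ℝ, 0 ≤ r → r < 1 → HasSum (fun m : ℕ => (cA ∅ m : ℝ) * r ^ m) (r / (1 - r)) := by
    intro r a b
    have h1 := (hasSum_geometric_of_lt_one a b).mul_left r
    rw [← div_eq_mul_inv] at h1
    have h2 : HasSum (fun m : ℕ => (cA ∅ (m + 1) : ℝ) * r ^ (m + 1)) (r / (1 - r)) := by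
      refine h1.congr_fun fun m => ?_
      rw [cA_apply ∅ (Nat.succ_ne_zero m), ch_empty, pow_succ]
      push_cast
      ring
    have h3 := (hasSum_nat_add_iff (f := fun m : ℕ => (cA ∅ m : ℝ) * r ^ m) 1).1 h2
    simpa using h3
  have a1 := lam_fib f (cA ∅) hG (Real.exp_pos _).le (hq t ht)
    (lamG_all hf.bd (cA_bd ∅) ht hs1)
  have a2 := lam_fib f (cA ∅) hG (Real.exp_pos _).le (hq (2 * t) (by linarith))
    (lamG_all hf.bd (cA_bd ∅) (by linarith) hs2)
  have a3 := a1.sub (a2.mul_left 2)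
  have a4 := hC t ht ht1 (s1 - 2 * s2) (by
    refine a3.congr_fun fun d => ?_
    rcases Nat.eq_zero_or_pos d with hd | hd
    · subst hd
      unfold rf
      simp
    · have e1 : Real.exp (-t) ^ d = Real.exp (-(d * t)) := by
        rw [← Real.exp_nat_mul]; congr 1; ring
      have e2 : Real.exp (-(2 * t)) ^ d = Real.exp (-(d * t)) ^ 2 := by
        rw [← Real.exp_nat_mul, ← Real.exp_nat_mul]; congr 1; push_cast; ring
      rw [e1, e2]
      have hdt : 0 < (d : ℝ) * t := by positivity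
      have hr := hq _ hdt
      have hr0 := Real.exp_pos (-(d * t))
      set r := Real.exp (-(d * t)) with hrd
      have n1 : 1 - r ≠ 0 := by linarith
      have n2 : 1 + r ≠ 0 := by linarith
      have n3 : 1 - r ^ 2 = (1 - r) * (1 + r) := by ring
      simp only [Polynomial.eval_X, Polynomial.eval_add, Polynomial.eval_one]
      rw [n3]
      unfold rf
      field_simp
      ring)
  simp only [Polynomial.eval_X, Polynomial.eval_add, Polynomial.eval_one] at a4
  have e : mu (rf f) M * (1 / (1 + 1)) = mu (rf f) M / 2 := by ring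
  rw [e] at a4
  exact a4

/-- the first moment of an even function vanishes -/
lemma refl_mu {f : ArithmeticFunction ℤ} {M : ℕ} (hf : Per f M)
    (hr : ∀ j ≤ M, f (M - j) = f j) : mu (rf f) M = 0 := by
  rw [mu_eq hf.mean]
  have hsum := hf.mean
  unfold ps at hsum
  have hrefl : ∀ j ∈ range (M + 1), rf f (M - j) = rf f j := by
    intro j hj
    rw [mem_range] at hj
    unfold rf
    rw [hr j (by omega)]
  have h0 : rf f M = 0 := by
    have h1 := hf.per 0
    rw [zero_add] at h1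
    rw [h1]
    unfold rf
    simp
  have e1 : ∑ j ∈ range (M + 1), (j : ℝ) * rf f j =
      ∑ j ∈ range (M + 1), ((M : ℝ) - j) * rf f j := by
    rw [← sum_range_reflect]
    apply sum_congr rfl
    intro j hj
    rw [mem_range] at hj
    have e2 : M + 1 - 1 - j = M - j := by omega
    rw [e2, hrefl j (mem_range.2 hj), Nat.cast_sub (by omega)]
  have e3 : ∑ j ∈ range (M + 1), ((M : ℝ) - j) * rf f j =
      M * ∑ j ∈ range (M + 1), rf f j - ∑ j ∈ range (M + 1), (j : ℝ) * rf f j := by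
    rw [mul_sum, ← sum_sub_distrib]
    exact sum_congr rfl fun j _ => by ring
  rw [e3, sum_range_succ (fun j => rf f j), hsum, h0] at e1
  rw [sum_range_succ, h0] at e1
  have : ∑ j ∈ range M, (j : ℝ) * rf f j = 0 := by linarith
  rw [this]
  simp

/-- a function with `f (d + h) = -f d` -/
lemma anti_per {f : ArithmeticFunction ℤ} {h : ℕ} (h0 : 0 < h) (hb : ∀ n, |f n| ≤ 1)
    (ha : ∀ d, f (d + h) = - f d) : Per f (2 * h) where
  pos := by omega
  bd := hb
  per := fun d => by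
    unfold rf
    rw [two_mul, ← add_assoc, ha, ha, neg_neg]
  mean := by
    unfold ps
    rw [two_mul, sum_range_add, add_comm, ← sum_add_distrib]
    apply sum_eq_zero
    intro d _
    unfold rf
    rw [add_comm h d, ha]
    push_cast
    ring

end Pool.Agent.N609.CNF
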