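import Pool.Agent.N855.CNF.Loc

/-!
# The local densities of orthogonal pairs as a sum over genus characters, any odd prime `q`
-/

set_option autoImplicit false

namespace Pool.Agent.N609.CNF

open Finset ArithmeticFunction
open Pool.Agent.N969.P15 (tw)
open Pool.Agent.Z700 (hh fac)
open Pool.Agent.N855.CNF (ch ch_one ch_mul ch_pow ch_empty cA cA_apply cA_mult odd_of_dvd jac_neg
  jac_two Rf Rf_one Rf_P conv_Rf eta eA eA_apply conv_eq ch_primeFactors ch_zero)

/-- the local densities for the quaternion algebra ramified at the odd prime `q` -/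
def locq (q n D : ℕ) : ℤ :=
  if Odd (D.factorization q) then
    tw n D * ∏ l ∈ (D.primeFactors.erase 2).erase q, fac n D l
  else 0

lemma not_dvd_of_jac {q n : ℕ} (hq : q.Prime) (hn : n ≠ 0) (h : jacobiSym (q : ℤ) n = -1) :
    ¬ q ∣ n := by
  intro hd
  have : NeZero n := ⟨hn⟩
  have h1 : jacobiSym (q : ℤ) n = 0 := by
    rw [jacobiSym.eq_zero_iff_not_coprime, Int.gcd_natCast_natCast, Nat.gcd_eq_left hd]
    exact hq.one_lt.ne'
  rw [h1] at h
  norm_num at h

lemma hh_eq {q n m l : ℕ} (hq : q.Prime) (hn : Squarefree n) (h4 : n % 4 = 3) (h5 : ¬ q ∣ n)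
    (hm : m ≠ 0) (hl : l ∈ n.primeFactors) :
    hh n (n * (4 * q * m)) l = jacobiSym (-(q : ℤ)) l * eta n l m := by
  have hq0 := hq.pos
  have hlp := Nat.prime_of_mem_primeFactors hl
  have hln := Nat.dvd_of_mem_primeFactors hl
  have hlo := odd_of_dvd h4 hlp hln
  have hl2 : l ≠ 2 := by rintro rfl; exact absurd hlo (by decide)
  have hl5 : l ≠ q := by rintro rfl; exact h5 hln
  have hn0 : n ≠ 0 := hn.ne_zero
  have hv1 : n.factorization l = 1 := by
    have h1 := hn.natFactorization_le_one l
    have h2 : 0 < n.factorization l := hlp.factorization_pos_of_dvd hn0 hln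
    omega
  have hv20 : (4 * q).factorization l = 0 := by
    apply Nat.factorization_eq_zero_of_not_dvd
    intro h
    have h3 : l ∣ 2 ^ 2 * q := by norm_num; exact h
    rcases (Nat.Prime.dvd_mul hlp).1 h3 with h4' | h4'
    · exact hl2 ((Nat.prime_dvd_prime_iff_eq hlp Nat.prime_two).1 (hlp.dvd_of_dvd_pow h4'))
    · exact hl5 ((Nat.prime_dvd_prime_iff_eq hlp hq).1 h4')
  set a := m.factorization l with ha
  have hv : (n * (4 * q * m)).factorization l = a + 1 := by
    rw [Nat.factorization_mul hn0 (by positivity), Nat.factorization_mul (by positivity) hm]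
    simp only [Finsupp.add_apply]
    rw [hv1, hv20, ← ha]; ring
  set ml := m / l ^ a with hml
  have hmm : l ^ a * ml = m := Nat.mul_div_cancel' (Nat.ordProj_dvd m l)
  set n' := n / l with hn'
  have hnn : l * n' = n := Nat.mul_div_cancel' hln
  have hquo : n * (4 * q * m) / l ^ (a + 1) = n' * (4 * q) * ml := by
    apply Nat.div_eq_of_eq_mul_right (pow_pos hlp.pos _)
    rw [← hnn, ← hmm]
    ring
  have hj4 : jacobiSym 4 l = 1 := jacobiSym.at_four hlo
  have hcop : Int.gcd (n' : ℤ) (l : ℤ) = 1 := by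
    rw [Int.gcd_natCast_natCast, Nat.gcd_comm]
    apply (Nat.Prime.coprime_iff_not_dvd hlp).2
    rintro ⟨j, hj⟩
    have : l * l ∣ n := ⟨j, by rw [← hnn, hj]; ring⟩
    exact hlp.one_lt.ne' (Nat.isUnit_iff.1 (hn l this))
  have hj2 : jacobiSym (n' : ℤ) l ^ 2 = 1 := jacobiSym.sq_one hcop
  unfold hh eta
  rw [hv, hquo, ← ha, ← hml, ← hn']
  by_cases hev : Even a
  · rw [if_neg (by rw [Nat.even_add_one]; simpa using hev)]
    have e1 : (-((n' * (n' * (4 * q) * ml) : ℕ) : ℤ)) = (-(q : ℤ)) * 4 * ((n' : ℤ) ^ 2) * (ml : ℤ) := by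
      push_cast; ring
    obtain ⟨b, hb⟩ := hev
    rw [e1, jacobiSym.mul_left, jacobiSym.mul_left, jacobiSym.mul_left, jacobiSym.pow_left, hj4,
      hj2, hb, ← two_mul, pow_mul, hj2, one_pow]
    ring
  · rw [if_pos (by rw [Nat.even_add_one]; exact hev)]
    have e1 : (-((n' * (4 * q) * ml : ℕ) : ℤ)) = (-(q : ℤ)) * 4 * (n' : ℤ) * (ml : ℤ) := by
      push_cast; ring
    rw [Nat.not_even_iff_odd] at hev
    obtain ⟨b, hb⟩ := hev
    rw [e1, jacobiSym.mul_left, jacobiSym.mul_left, jacobiSym.mul_left, hj4,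
      hb, pow_succ, pow_mul, hj2, one_pow]
    ring

/-- the local densities of orthogonal pairs -/
theorem loc_eq {q n m : ℕ} (hq : q.Prime) (hq2 : q ≠ 2) (hn : Squarefree n) (h4 : n % 4 = 3)
    (h5 : jacobiSym (q : ℤ) n = -1)
    (hm : m ≠ 0) : locq q n (n * (4 * q * m)) = ∑ S ∈ n.primeFactors.powerset,
      (∏ l ∈ S, jacobiSym (-(q : ℤ)) l) * (cA S * cA (n.primeFactors \ S)) m := by
  have h5' : ¬ q ∣ n := not_dvd_of_jac hq (by omega) h5
  have hq0 := hq.pos
  have hn0 : n ≠ 0 := hn.ne_zero
  have h20 : (4 * q * m) ≠ 0 := by positivity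
  set D := n * (4 * q * m) with hD
  have hD0 : D ≠ 0 := mul_ne_zero hn0 h20
  set U := D.primeFactors with hU
  have hvD : ∀ l : ℕ, D.factorization l = n.factorization l + (4 * q).factorization l +
      m.factorization l := by
    intro l
    rw [hD, Nat.factorization_mul hn0 h20, Nat.factorization_mul (by positivity) hm]
    simp only [Finsupp.add_apply]
    ring
  have h20f : (4 * q).factorization = Finsupp.single 2 2 + Finsupp.single q 1 := by
    have : (4 : ℕ) = 2 ^ 2 := by norm_num
    rw [this, Nat.factorization_mul (by norm_num) hq0.ne', Nat.prime_two.factorization_pow,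
      hq.factorization]
  have hv2 : D.factorization 2 = 2 + m.factorization 2 := by
    rw [hvD, h20f, Nat.factorization_eq_zero_of_not_dvd (by omega : ¬ 2 ∣ n)]
    simp [hq2]
  have hv5 : D.factorization q = 1 + m.factorization q := by
    rw [hvD, h20f, Nat.factorization_eq_zero_of_not_dvd h5']
    simp [Ne.symm hq2]
  have hmU : m.primeFactors ⊆ U := Nat.primeFactors_mono ⟨n * (4 * q), by rw [hD]; ring⟩ hD0
  have hPU : n.primeFactors ⊆ U := Nat.primeFactors_mono ⟨4 * q * m, rfl⟩ hD0
  have h2U : 2 ∈ U := by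
    rw [hU, Nat.mem_primeFactors]
    exact ⟨Nat.prime_two, ⟨n * (2 * q * m), by rw [hD]; ring⟩, hD0⟩
  have h5U : q ∈ U.erase 2 := by
    rw [mem_erase, hU, Nat.mem_primeFactors]
    exact ⟨hq2, hq, ⟨n * (4 * m), by rw [hD]; ring⟩, hD0⟩
  have h2P : 2 ∉ n.primeFactors := fun h => by
    have := Nat.dvd_of_mem_primeFactors h; omega
  have h5P : q ∉ n.primeFactors := fun h => h5' (Nat.dvd_of_mem_primeFactors h)
  have hr := conv_Rf (n := n) hm U hmU
  rw [← mul_prod_erase U _ h2U, ← mul_prod_erase (U.erase 2) _ h5U] at hr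
  have hR2 : tw n D = Rf n m 2 := by
    unfold tw Rf
    rw [hv2, ch_primeFactors hn, Nat.cast_ofNat, jac_two h4]
    have : 2 + m.factorization 2 - 1 = m.factorization 2 + 1 := by omega
    rw [this]
  have hR5 : Rf n m q = if Odd (D.factorization q) then 1 else 0 := by
    unfold Rf
    rw [hv5, ch_primeFactors hn, h5]
    generalize m.factorization q = k
    induction k with
    | zero => simp
    | succ k ih =>
      rw [sum_range_succ, ih]
      rcases Nat.even_or_odd k with hk | hk
      · have o1 : Odd (1 + k) := by rw [add_comm]; exact hk.add_one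
        have o2 : ¬ Odd (1 + (k + 1)) := by
          rw [Nat.not_odd_iff_even, show 1 + (k + 1) = k + 2 by ring]
          exact hk.add (by decide)
        rw [if_pos o1, if_neg o2, (hk.add_one).neg_one_pow]
        ring
      · have o1 : ¬ Odd (1 + k) := by rw [add_comm, Nat.not_odd_iff_even]; exact hk.add_one
        have o2 : Odd (1 + (k + 1)) := by
          rw [show 1 + (k + 1) = k + 2 by ring]
          exact hk.add_even (by decide)
        rw [if_neg o1, if_pos o2, (hk.add_one).neg_one_pow]
        ring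
  have hfac : ∀ l ∈ (U.erase 2).erase q, fac n D l =
      (if l ∈ n.primeFactors then 1 + hh n D l else 1) * Rf n m l := by
    intro l hl
    have hl5 : l ≠ q := ne_of_mem_erase hl
    have hl2 : l ≠ 2 := ne_of_mem_erase (mem_of_mem_erase hl)
    have hlU := mem_of_mem_erase (mem_of_mem_erase hl)
    have hlp := Nat.prime_of_mem_primeFactors hlU
    unfold fac
    by_cases hln : l ∣ n
    · have hlP : l ∈ n.primeFactors := Nat.mem_primeFactors.2 ⟨hlp, hln, hn0⟩
      rw [if_pos hln, if_pos hlP, Rf_P hlP, mul_one]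
    · have hlP : l ∉ n.primeFactors := fun h => hln (Nat.dvd_of_mem_primeFactors h)
      rw [if_neg hln, if_neg hlP, one_mul]
      unfold Rf
      have hv : D.factorization l = m.factorization l := by
        rw [hvD, h20f, Nat.factorization_eq_zero_of_not_dvd hln]
        simp [Ne.symm hl2, Ne.symm hl5]
      have hlo : Odd l := hlp.odd_of_ne_two hl2
      rw [hv, ch_primeFactors hn, jac_neg h4 hlo]
  have hprodP : ∏ l ∈ (U.erase 2).erase q, (if l ∈ n.primeFactors then 1 + hh n D l else 1) =
      ∏ l ∈ n.primeFactors, (1 + hh n D l) := by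
    rw [← prod_filter]
    congr 1
    ext l
    rw [mem_filter, mem_erase, mem_erase]
    constructor
    · rintro ⟨_, h⟩; exact h
    · intro h
      exact ⟨⟨fun e => h5P (e ▸ h), fun e => h2P (e ▸ h), hPU h⟩, h⟩
  have hmain : locq q n D = (∏ l ∈ n.primeFactors, (1 + hh n D l)) *
      (cA ∅ * cA n.primeFactors) m := by
    rw [hr]
    unfold locq
    rw [prod_congr rfl hfac, prod_mul_distrib, hprodP, hR2, hR5]
    split_ifs
    · ring
    · ring
  rw [hmain, prod_one_add, sum_mul]
  apply sum_congr rfl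
  intro S hS
  rw [mem_powerset] at hS
  have e1 : ∏ l ∈ S, hh n D l = (∏ l ∈ S, jacobiSym (-(q : ℤ)) l) * eA n S m := by
    rw [eA_apply n S hm, ← prod_mul_distrib]
    exact prod_congr rfl fun l hl => hh_eq hq hn h4 h5' hm (hS hl)
  rw [e1, mul_assoc]
  congr 1
  rw [← conv_eq hn h4 hS, pmul_apply]

/-- the other norms -/
theorem loc_zero {q n k : ℕ} (hq : q.Prime) (hq2 : q ≠ 2) (hn : Squarefree n) (h4 : n % 4 = 3)
    (h5 : ¬ q ∣ n) (hk : k ≠ 0) (h : ¬ 4 * q ∣ k) : locq q n (n * k) = 0 := by
  have hn0 : n ≠ 0 := hn.ne_zero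
  have hv5 : (n * k).factorization q = k.factorization q := by
    rw [Nat.factorization_mul hn0 hk, Finsupp.add_apply,
      Nat.factorization_eq_zero_of_not_dvd h5, zero_add]
  have hv2 : (n * k).factorization 2 = k.factorization 2 := by
    rw [Nat.factorization_mul hn0 hk, Finsupp.add_apply,
      Nat.factorization_eq_zero_of_not_dvd (by omega : ¬ 2 ∣ n), zero_add]
  unfold locq
  split_ifs with hodd
  · rw [hv5] at hodd
    have h5k : q ∣ k := by
      by_contra h5k
      rw [Nat.factorization_eq_zero_of_not_dvd h5k] at hodd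
      exact absurd hodd (by decide)
    have h4k : ¬ 4 ∣ k := fun h4k => h (Nat.Coprime.mul_dvd_of_dvd_of_dvd
      (Nat.Coprime.pow_left 2 ((Nat.coprime_primes Nat.prime_two hq).2 (Ne.symm hq2))) h4k h5k)
    have hlt : k.factorization 2 < 2 := by
      by_contra hge
      push Not at hge
      apply h4k
      have := (Nat.prime_two.pow_dvd_iff_le_factorization hk).2 hge
      norm_num at this
      exact this
    unfold tw
    rw [hv2]
    have : k.factorization 2 - 1 = 0 := by omega
    rw [this]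
    simp
  · rfl

end Pool.Agent.N609.CNF
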