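import Pool.Agent.N609.CNF.Loc
import Pool.Agent.N609.CNF.EvConv

/-!
# The local densities of orthogonal pairs: ramified and even cases
-/

set_option autoImplicit false

namespace Pool.Agent.N609.CNF

open Finset ArithmeticFunction
open Pool.Agent.N969.P15 (tw tb c2 Ev)
open Pool.Agent.Z700 (hh fac)
open Pool.Agent.N855.CNF (ch ch_one ch_mul ch_pow ch_empty cA cA_apply cA_mult odd_of_dvd jac_neg
  jac_two Rf Rf_one Rf_P conv_Rf eta eA eA_apply conv_eq ch_primeFactors ch_zero OP md md_pos md_odd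
  ch_jac conv_pow)

/-- the local symbol of orthogonal pairs at a prime which divides `n` exactly once -/
lemma hh_gen {w n m l : ℕ} (hlp : l.Prime) (hl2 : l ≠ 2) (hln : l ∣ n) (hsq : ¬ l * l ∣ n)
    (hn0 : n ≠ 0) (hw0 : w ≠ 0) (hw : ¬ l ∣ w) (hm : m ≠ 0) :
    hh n (n * (4 * w * m)) l = jacobiSym (-(w : ℤ)) l * eta n l m := by
  have hlo : Odd l := hlp.odd_of_ne_two hl2
  have hv1 : n.factorization l = 1 := by
    have h2 : 0 < n.factorization l := hlp.factorization_pos_of_dvd hn0 hln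
    have h3 : ¬ 2 ≤ n.factorization l := by
      intro h
      exact hsq (by rw [← sq]; exact (hlp.pow_dvd_iff_le_factorization hn0).2 h)
    omega
  have hv20 : (4 * w).factorization l = 0 := by
    apply Nat.factorization_eq_zero_of_not_dvd
    intro h
    have h3 : l ∣ 2 ^ 2 * w := by norm_num; exact h
    rcases (Nat.Prime.dvd_mul hlp).1 h3 with h4' | h4'
    · exact hl2 ((Nat.prime_dvd_prime_iff_eq hlp Nat.prime_two).1 (hlp.dvd_of_dvd_pow h4'))
    · exact hw h4'
  have hwp : 0 < w := Nat.pos_of_ne_zero hw0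
  set a := m.factorization l with ha
  have hv : (n * (4 * w * m)).factorization l = a + 1 := by
    rw [Nat.factorization_mul hn0 (by positivity), Nat.factorization_mul (by positivity) hm]
    simp only [Finsupp.add_apply]
    rw [hv1, hv20, ← ha]; ring
  set ml := m / l ^ a with hml
  have hmm : l ^ a * ml = m := Nat.mul_div_cancel' (Nat.ordProj_dvd m l)
  set n' := n / l with hn'
  have hnn : l * n' = n := Nat.mul_div_cancel' hln
  have hquo : n * (4 * w * m) / l ^ (a + 1) = n' * (4 * w) * ml := by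
    apply Nat.div_eq_of_eq_mul_right (pow_pos hlp.pos _)
    rw [← hnn, ← hmm]
    ring
  have hj4 : jacobiSym 4 l = 1 := jacobiSym.at_four hlo
  have hcop : Int.gcd (n' : ℤ) (l : ℤ) = 1 := by
    rw [Int.gcd_natCast_natCast, Nat.gcd_comm]
    apply (Nat.Prime.coprime_iff_not_dvd hlp).2
    rintro ⟨j, hj⟩
    exact hsq ⟨j, by rw [← hnn, hj]; ring⟩
  have hj2 : jacobiSym (n' : ℤ) l ^ 2 = 1 := jacobiSym.sq_one hcop
  unfold hh eta
  rw [hv, hquo, ← ha, ← hml, ← hn']
  by_cases hev : Even a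
  · rw [if_neg (by rw [Nat.even_add_one]; simpa using hev)]
    have e1 : (-((n' * (n' * (4 * w) * ml) : ℕ) : ℤ)) =
        (-(w : ℤ)) * 4 * ((n' : ℤ) ^ 2) * (ml : ℤ) := by
      push_cast; ring
    obtain ⟨b, hb⟩ := hev
    rw [e1, jacobiSym.mul_left, jacobiSym.mul_left, jacobiSym.mul_left, jacobiSym.pow_left, hj4,
      hj2, hb, ← two_mul, pow_mul, hj2, one_pow]
    ring
  · rw [if_pos (by rw [Nat.even_add_one]; exact hev)]
    have e1 : (-((n' * (4 * w) * ml : ℕ) : ℤ)) = (-(w : ℤ)) * 4 * (n' : ℤ) * (ml : ℤ) := by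
      push_cast; ring
    rw [Nat.not_even_iff_odd] at hev
    obtain ⟨b, hb⟩ := hev
    rw [e1, jacobiSym.mul_left, jacobiSym.mul_left, jacobiSym.mul_left, hj4,
      hb, pow_succ, pow_mul, hj2, one_pow]
    ring

/-- the symbol is a sign -/
lemma eta_sign {n m l : ℕ} (hlp : l.Prime) (hln : l ∣ n) (hsq : ¬ l * l ∣ n) (hm : m ≠ 0) :
    eta n l m = 1 ∨ eta n l m = -1 := by
  have hnn : l * (n / l) = n := Nat.mul_div_cancel' hln
  have hcop : Int.gcd ((n / l : ℕ) : ℤ) (l : ℤ) = 1 := by
    rw [Int.gcd_natCast_natCast, Nat.gcd_comm]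
    apply (Nat.Prime.coprime_iff_not_dvd hlp).2
    rintro ⟨j, hj⟩
    exact hsq ⟨j, by rw [← hnn, hj]; ring⟩
  have hcop2 : Int.gcd ((m / l ^ m.factorization l : ℕ) : ℤ) (l : ℤ) = 1 := by
    rw [Int.gcd_natCast_natCast, Nat.gcd_comm]
    exact Nat.coprime_ordCompl hlp hm
  unfold eta
  rw [← sq_eq_one_iff, mul_pow, ← pow_mul, mul_comm (m.factorization l) 2, pow_mul,
    jacobiSym.sq_one hcop, jacobiSym.sq_one hcop2]
  simp

/-- the sign at a prime dividing `n`, ramified case -/
def er (q l : ℕ) : ℤ := (if l = q then -1 else 1) * jacobiSym (-1) l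

lemma er_abs (q l : ℕ) : |er q l| ≤ 1 := by
  unfold er
  rcases jacobiSym.trichotomy (-1) l with h | h | h <;> rw [h] <;> split_ifs <;> simp

/-- twice the indicator of the symbol `-1` at `q` times the factors at the other primes -/
lemma two_ind {P : Finset ℕ} {q : ℕ} (hq : q ∈ P) (f : ℕ → ℤ) (hf : f q = 1 ∨ f q = -1) :
    2 * ((if f q = -1 then 1 else 0) * ∏ l ∈ P.erase q, (1 + f l)) =
      ∑ S ∈ P.powerset, ∏ l ∈ S, ((if l = q then -1 else 1) * f l) := by
  rw [← prod_one_add, ← mul_prod_erase P _ hq, if_pos rfl]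
  have h1 : ∏ l ∈ P.erase q, (1 + (if l = q then -1 else 1) * f l) =
      ∏ l ∈ P.erase q, (1 + f l) := by
    apply prod_congr rfl
    intro l hl
    rw [if_neg (ne_of_mem_erase hl), one_mul]
  rw [h1]
  rcases hf with h | h <;> rw [h]
  · norm_num
  · norm_num

/-- the local densities, `q ∣ n` -/
def locr (q n D : ℕ) : ℤ :=
  if q ∣ D ∧ hh n D q = -1 then
    tw n D * ∏ l ∈ (D.primeFactors.erase 2).erase q, fac n D l
  else 0

/-- the local densities of orthogonal pairs, `q ∣ n` -/
theorem loc_eqR {q n m : ℕ} (hq : q.Prime) (hn : Squarefree n) (h4 : n % 4 = 3)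
    (h5 : q ∣ n) (hm : m ≠ 0) :
    2 * locr q n (n * (4 * m)) = ∑ S ∈ n.primeFactors.powerset,
      (∏ l ∈ S, er q l) * (cA S * cA (n.primeFactors \ S)) m := by
  have hn0 : n ≠ 0 := hn.ne_zero
  have hqo : Odd q := odd_of_dvd h4 hq h5
  have hq2 : q ≠ 2 := by rintro rfl; exact absurd hqo (by decide)
  have h20 : (4 * m) ≠ 0 := by positivity
  set D := n * (4 * m) with hD
  have hD0 : D ≠ 0 := mul_ne_zero hn0 h20
  set U := D.primeFactors with hU
  have hvD : ∀ l : ℕ, D.factorization l = n.factorization l + (4 : ℕ).factorization l +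
      m.factorization l := by
    intro l
    rw [hD, Nat.factorization_mul hn0 h20, Nat.factorization_mul (by norm_num) hm]
    simp only [Finsupp.add_apply]
    ring
  have h20f : (4 : ℕ).factorization = Finsupp.single 2 2 := by
    have : (4 : ℕ) = 2 ^ 2 := by norm_num
    rw [this, Nat.prime_two.factorization_pow]
  have hv2 : D.factorization 2 = 2 + m.factorization 2 := by
    rw [hvD, h20f, Nat.factorization_eq_zero_of_not_dvd (by omega : ¬ 2 ∣ n)]
    simp
  have hmU : m.primeFactors ⊆ U := Nat.primeFactors_mono ⟨n * 4, by rw [hD]; ring⟩ hD0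
  have hPU : n.primeFactors ⊆ U := Nat.primeFactors_mono ⟨4 * m, rfl⟩ hD0
  have h2U : 2 ∈ U := by
    rw [hU, Nat.mem_primeFactors]
    exact ⟨Nat.prime_two, ⟨n * (2 * m), by rw [hD]; ring⟩, hD0⟩
  have hqP : q ∈ n.primeFactors := Nat.mem_primeFactors.2 ⟨hq, h5, hn0⟩
  have h5U : q ∈ U.erase 2 := mem_erase.2 ⟨hq2, hPU hqP⟩
  have h2P : 2 ∉ n.primeFactors := fun h => by
    have := Nat.dvd_of_mem_primeFactors h; omega
  have hr := conv_Rf (n := n) hm U hmU
  rw [← mul_prod_erase U _ h2U, ← mul_prod_erase (U.erase 2) _ h5U] at hr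
  have hR2 : tw n D = Rf n m 2 := by
    unfold tw Rf
    rw [hv2, ch_primeFactors hn, Nat.cast_ofNat, jac_two h4]
    have : 2 + m.factorization 2 - 1 = m.factorization 2 + 1 := by omega
    rw [this]
  have hR5 : Rf n m q = 1 := Rf_P hqP
  have hfac : ∀ l ∈ (U.erase 2).erase q, fac n D l =
      (if l ∈ n.primeFactors then 1 + hh n D l else 1) * Rf n m l := by
    intro l hl
    have hl5 : l ≠ q := ne_of_mem_erase hl
    have hl2 : l ≠ 2 := ne_of_mem_erase (mem_of_mem_erase hl)
    have hlU := mem_of_mem_erase (mem_of_mem_erase hl)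
    have hlp := Nat.prime_of_mem_primeFactors hlU
    unfold fac
    by_cases hln : l ∣ n
    · have hlP : l ∈ n.primeFactors := Nat.mem_primeFactors.2 ⟨hlp, hln, hn0⟩
      rw [if_pos hln, if_pos hlP, Rf_P hlP, mul_one]
    · have hlP : l ∉ n.primeFactors := fun h => hln (Nat.dvd_of_mem_primeFactors h)
      rw [if_neg hln, if_neg hlP, one_mul]
      unfold Rf
      have hv : D.factorization l = m.factorization l := by
        rw [hvD, h20f, Nat.factorization_eq_zero_of_not_dvd hln]
        simp [Ne.symm hl2]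
      have hlo : Odd l := hlp.odd_of_ne_two hl2
      rw [hv, ch_primeFactors hn, jac_neg h4 hlo]
  have hprodP : ∏ l ∈ (U.erase 2).erase q, (if l ∈ n.primeFactors then 1 + hh n D l else 1) =
      ∏ l ∈ n.primeFactors.erase q, (1 + hh n D l) := by
    rw [← prod_filter]
    congr 1
    ext l
    rw [mem_filter, mem_erase, mem_erase, mem_erase]
    constructor
    · rintro ⟨h1, h⟩; exact ⟨h1.1, h⟩
    · intro h
      exact ⟨⟨h.1, fun e => h2P (e ▸ h.2), hPU h.2⟩, h.2⟩
  have hsq : ∀ l : ℕ, l.Prime → ¬ l * l ∣ n := fun l hl h =>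
    hl.one_lt.ne' (Nat.isUnit_iff.1 (hn l h))
  have hhl : ∀ l ∈ n.primeFactors, hh n D l = jacobiSym (-1) l * eta n l m := by
    intro l hl
    have hlp := Nat.prime_of_mem_primeFactors hl
    have := hh_gen (w := 1) (n := n) (m := m) (l := l) hlp
      (fun e => h2P (e ▸ hl)) (Nat.dvd_of_mem_primeFactors hl) (hsq l hlp) hn0 one_ne_zero
      (fun h => hlp.one_lt.ne' (Nat.dvd_one.1 h)) hm
    rw [mul_one, Nat.cast_one] at this
    exact this
  have hqs : hh n D q = 1 ∨ hh n D q = -1 := by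
    rw [hhl q hqP]
    have h1 := eta_sign (m := m) hq h5 (hsq q hq) hm
    have h2 : jacobiSym (-1) q = 1 ∨ jacobiSym (-1) q = -1 := by
      rw [← sq_eq_one_iff]
      apply jacobiSym.sq_one
      simp
    rcases h1 with h1 | h1 <;> rcases h2 with h2 | h2 <;> rw [h1, h2] <;> norm_num
  have hqD : q ∣ D := h5.trans ⟨4 * m, rfl⟩
  have hmain : locr q n D = ((if hh n D q = -1 then 1 else 0) *
      ∏ l ∈ n.primeFactors.erase q, (1 + hh n D l)) * (cA ∅ * cA n.primeFactors) m := by
    rw [hr]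
    unfold locr
    rw [prod_congr rfl hfac, prod_mul_distrib, hprodP, hR2, hR5]
    by_cases h : hh n D q = -1
    · rw [if_pos ⟨hqD, h⟩, if_pos h]; ring
    · rw [if_neg (fun h' => h h'.2), if_neg h]; ring
  rw [hmain, ← mul_assoc, two_ind hqP _ hqs, sum_mul]
  apply sum_congr rfl
  intro S hS
  rw [mem_powerset] at hS
  have e1 : ∏ l ∈ S, ((if l = q then -1 else 1) * hh n D l) = (∏ l ∈ S, er q l) * eA n S m := by
    rw [eA_apply n S hm, ← prod_mul_distrib]
    apply prod_congr rfl
    intro l hl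
    rw [hhl l (hS hl)]
    unfold er
    ring
  rw [e1, mul_assoc]
  congr 1
  rw [← conv_eq hn h4 hS, pmul_apply]

/-- the other norms -/
theorem loc_zeroR {q n k : ℕ} (hn : Squarefree n) (h4 : n % 4 = 3) (hk : k ≠ 0)
    (h : ¬ 4 ∣ k) : locr q n (n * k) = 0 := by
  have hn0 : n ≠ 0 := hn.ne_zero
  have hv2 : (n * k).factorization 2 = k.factorization 2 := by
    rw [Nat.factorization_mul hn0 hk, Finsupp.add_apply,
      Nat.factorization_eq_zero_of_not_dvd (by omega : ¬ 2 ∣ n), zero_add]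
  unfold locr
  split_ifs with hodd
  · have hlt : k.factorization 2 < 2 := by
      by_contra hge
      push Not at hge
      apply h
      have := (Nat.prime_two.pow_dvd_iff_le_factorization hk).2 hge
      norm_num at this
      exact this
    unfold tw
    rw [hv2]
    have : k.factorization 2 - 1 = 0 := by omega
    rw [this]
    simp
  · rfl

end Pool.Agent.N609.CNF
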